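import Pool.Agent.H912R3.Cov.L3

/-! Counting the values of an arbitrary real linear functional on the integer points of `k • P`. -/

set_option autoImplicit false

open Set

namespace H912Cov

/-- an integer vector is a multiple of a primitive one -/
lemma exists_prim {n : ℕ} (Y : Fin n → ℤ) (hY : Y ≠ 0) :
    ∃ (g : ℤ) (Y' e : Fin n → ℤ), g ≠ 0 ∧ (∀ i, Y i = g * Y' i) ∧ ∑ i, Y' i * e i = 1 := by
  obtain ⟨g, hg⟩ := IsPrincipalIdealRing.principal (Ideal.span (Set.range Y))
  have h1 : ∀ i, g ∣ Y i := by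
    intro i
    have h2 : Y i ∈ Ideal.span (Set.range Y) := Ideal.subset_span ⟨i, rfl⟩
    rw [hg] at h2
    exact Ideal.mem_span_singleton.mp h2
  have h3 : g ∈ Ideal.span (Set.range Y) := by
    rw [hg]
    exact Ideal.mem_span_singleton_self g
  obtain ⟨e, he⟩ := (Submodule.mem_span_range_iff_exists_fun ℤ).mp h3
  have hg0 : g ≠ 0 := by
    rintro rfl
    apply hY
    funext i
    exact zero_dvd_iff.mp (h1 i)
  choose Y' hY' using h1
  refine ⟨g, Y', e, hg0, hY', ?_⟩
  have h4 : g * ∑ i, Y' i * e i = g * 1 := by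
    rw [Finset.mul_sum, mul_one]
    rw [← he]
    refine Eq.trans ?_ rfl
    conv_rhs => rw [he]
    rw [← he]
    apply Finset.sum_congr rfl
    intro i _
    rw [smul_eq_mul]
    rw [he]
    rw [hY' i]
    ring
  exact mul_left_cancel₀ hg0 h4

theorem count_gen {n : ℕ} (P : Set (Fin n → ℝ)) (hc : IsCompact P) (hconv : Convex ℝ P)
    (o : Fin n → ℝ) (ρ : ℝ) (hρ : 0 < ρ) (hball : ∀ x : Fin n → ℝ, (∀ i, |x i - o i| ≤ ρ) → x ∈ P)
    (B C : ℝ) (hB0 : 0 ≤ B)
    (hB : ∀ Y : Fin n → ℤ, Y ≠ 0 → ∀ a : ℝ, ∃ x ∈ P, ¬ (a ≤ lf Y x ∧ lf Y x ≤ a + B)) :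
    ∃ k0 : ℕ, ∀ k : ℕ, k0 ≤ k → ∀ f : Fin n → ℝ, f ≠ 0 → ∀ S : Finset ℝ,
      (∀ z : Fin n → ℤ, (∃ x ∈ P, rv z = (k : ℝ) • x) → ∑ i, f i * (z i : ℝ) ∈ S) →
      B * k + C < S.card := by
  classical
  set β : ℝ := B / ρ + |C| with hβ
  have hβ0 : 0 ≤ β := by positivity
  set L : ℕ := ⌈β⌉₊ + 1 with hL
  have hLβ : β < (L : ℝ) + 1 := by
    have := Nat.le_ceil β
    rw [hL]; push_cast; linarith
  have hL1 : 1 ≤ L := by rw [hL]; omega
  set Q : ℤ := (L.factorial : ℤ) with hQ
  have hQ0 : Q ≠ 0 := by rw [hQ]; exact_mod_cast L.factorial_ne_zero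
  -- thresholds for the primitive functionals
  have hprim : ∀ Y : Fin n → ℤ, ∃ k0 : ℕ, (∃ e : Fin n → ℤ, ∑ i, Y i * e i = 1) →
      ∀ k : ℕ, k0 ≤ k → ∀ S : Finset ℤ,
      (∀ z : Fin n → ℤ, (∃ x ∈ P, rv z = (k : ℝ) • x) → ∑ i, Y i * z i ∈ S) →
      B * k + C < S.card := by
    intro Y
    by_cases h : ∃ e : Fin n → ℤ, ∑ i, Y i * e i = 1
    · obtain ⟨e, he⟩ := h
      have hY : Y ≠ 0 := by
        rintro rfl
        simp at he
      obtain ⟨k0, hk0⟩ := count_prim P hc hconv o ρ hρ hball B C Y e he (hB Y hY)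
      exact ⟨k0, fun _ => hk0⟩
    · exact ⟨0, fun h' => absurd h' h⟩
  choose K0 hK0 using hprim
  set T : Finset (Fin n → ℤ) := Fintype.piFinset fun _ => Finset.Icc (-(L * Q)) (L * Q) with hT
  obtain ⟨k1, hk1⟩ := exists_nat_gt (((L : ℝ) + 1) / ρ)
  refine ⟨max (T.sup K0) (max k1 1), fun k hk f hf S hS => ?_⟩
  have hkT : ∀ Y ∈ T, K0 Y ≤ k := fun Y hY =>
    (Finset.le_sup hY).trans ((le_max_left _ _).trans hk)
  have hkk1 : k1 ≤ k := ((le_max_left _ _).trans (le_max_right _ _)).trans hk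
  have hk1' : 1 ≤ k := ((le_max_right _ _).trans (le_max_right _ _)).trans hk
  have hkρ : (L : ℝ) + 1 < k * ρ := by
    have h1 : ((L : ℝ) + 1) / ρ < k := hk1.trans_le (by exact_mod_cast hkk1)
    exact (div_lt_iff₀ hρ).mp h1
  set M : ℕ := ⌊k * ρ⌋₊ with hM
  have hMle : (M : ℝ) ≤ k * ρ := Nat.floor_le (by positivity)
  have hMlt : k * ρ < M + 1 := Nat.lt_floor_add_one _
  have hLM : L ≤ M := by
    have : (L : ℝ) < M + 1 := by linarith
    have : L < M + 1 := by exact_mod_cast this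
    omega
  by_contra hcon
  push Not at hcon
  have hcard : (S.card : ℝ) < (M + 1) * (L + 1) := by
    have h1 : B * k ≤ B / ρ * (M + 1) := by
      rw [div_mul_eq_mul_div, le_div_iff₀ hρ]
      nlinarith
    have h2 : C ≤ |C| * (M + 1) := by
      have := le_abs_self C
      have h3 := abs_nonneg C
      have h4 : (0 : ℝ) ≤ M := by positivity
      nlinarith
    have h3 : B * k + C ≤ β * (M + 1) := by rw [hβ, add_mul]; linarith
    have h4 : β * (M + 1) < (L + 1) * (M + 1) :=
      mul_lt_mul_of_pos_right hLβ (by positivity)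
    linarith
  -- the box of integer points
  set z0 : Fin n → ℤ := fun i => ⌊k * o i⌋ with hz0
  have hbox : ∀ v : Fin n → ℤ, (∀ i, 0 ≤ v i ∧ v i ≤ M) →
      ∑ i, f i * (((z0 i + v i : ℤ)) : ℝ) ∈ S := by
    intro v hv
    apply hS (fun i => z0 i + v i)
    have hk0 : (0 : ℝ) < k := by exact_mod_cast hk1'
    refine ⟨(1 / (k : ℝ)) • rv (fun i => z0 i + v i), ?_, ?_⟩
    · apply hball
      intro i
      have h1 := Int.floor_le (k * o i)
      have h2 := Int.lt_floor_add_one (k * o i)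
      have h3 : (0 : ℝ) ≤ v i := by exact_mod_cast (hv i).1
      have h4 : (v i : ℝ) ≤ M := by exact_mod_cast (hv i).2
      have e1 : ((1 / (k : ℝ)) • rv (fun i => z0 i + v i)) i - o i =
          (1 / (k : ℝ)) * ((⌊k * o i⌋ : ℝ) + v i - k * o i) := by
        simp only [Pi.smul_apply, rv, smul_eq_mul, hz0]
        push_cast
        field_simp
      rw [e1, abs_mul, abs_of_pos (by positivity : (0 : ℝ) < 1 / (k : ℝ)), one_div,
        inv_mul_le_iff₀ hk0, abs_le]
      have h5 : (1 : ℝ) ≤ k * ρ := by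
        have : (0 : ℝ) ≤ L := by positivity
        linarith
      constructor <;> linarith
    · rw [smul_smul, mul_one_div_cancel hk0.ne', one_smul]
  -- the largest coefficient
  have hne : (Finset.univ : Finset (Fin n)).Nonempty := by
    by_contra h
    apply hf
    funext i
    exact absurd ⟨i, Finset.mem_univ i⟩ h
  obtain ⟨i0, -, hi0⟩ := Finset.exists_max_image Finset.univ (fun i => |f i|) hne
  have hf0 : f i0 ≠ 0 := by
    intro h
    apply hf
    funext i
    have := hi0 i (Finset.mem_univ i)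
    rw [h, abs_zero] at this
    simpa using abs_nonpos_iff.mp this
  have hrel : ∀ j, ∃ a b : ℤ, b ≠ 0 ∧ |a| ≤ L ∧ |b| ≤ L ∧ (a : ℝ) * f i0 + b * f j = 0 := by
    intro j
    by_cases hj : j = i0
    · subst hj
      refine ⟨-1, 1, one_ne_zero, ?_, ?_, by push_cast; ring⟩
      · simp only [abs_neg, abs_one]; exact_mod_cast hL1
      · simp only [abs_one]; exact_mod_cast hL1
    · let φ : ℕ × ℕ → ℝ := fun p =>
        ∑ i, f i * (((z0 i + (Pi.single i0 (p.1 : ℤ) + Pi.single j (p.2 : ℤ) : Fin n → ℤ) i : ℤ)) : ℝ)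
      have hφ : ∀ p : ℕ × ℕ, φ p = ∑ i, f i * (z0 i : ℝ) + p.1 * f i0 + p.2 * f j := by
        intro p
        simp only [φ, Pi.add_apply, Pi.single_apply]
        push_cast
        simp only [mul_add, Finset.sum_add_distrib, mul_ite, mul_zero,
          Finset.sum_ite_eq', Finset.mem_univ, if_true]
        ring
      have hmaps : ∀ p ∈ (Finset.range (M + 1) ×ˢ Finset.range (L + 1)), φ p ∈ S := by
        intro p hp
        rw [Finset.mem_product, Finset.mem_range, Finset.mem_range] at hp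
        apply hbox
        intro i
        simp only [Pi.add_apply, Pi.single_apply]
        by_cases h1 : i = i0
        · subst h1
          rw [if_pos rfl, if_neg (fun h => hj h.symm)]
          constructor
          · positivity
          · simp only [add_zero]
            exact_mod_cast Nat.lt_succ_iff.mp hp.1
        · rw [if_neg h1]
          by_cases h2 : i = j
          · rw [if_pos h2]
            constructor
            · positivity
            · simp only [zero_add]
              exact_mod_cast (Nat.lt_succ_iff.mp hp.2).trans hLM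
          · rw [if_neg h2]
            simp
      have hlt : S.card < (Finset.range (M + 1) ×ˢ Finset.range (L + 1)).card := by
        rw [Finset.card_product, Finset.card_range, Finset.card_range]
        exact_mod_cast hcard
      obtain ⟨p, hp, p', hp', hpp, heq⟩ :=
        Finset.exists_ne_map_eq_of_card_lt_of_maps_to hlt hmaps
      rw [Finset.mem_product, Finset.mem_range, Finset.mem_range] at hp hp'
      rw [hφ, hφ] at heq
      have hrel : ((p.1 : ℤ) - p'.1 : ℤ) * f i0 + ((p.2 : ℤ) - p'.2 : ℤ) * f j = 0 := by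
        push_cast
        linarith
      have hb : ((p.2 : ℤ) - p'.2 : ℤ) ≠ 0 := by
        intro h
        rw [h] at hrel
        simp only [Int.cast_zero, zero_mul, add_zero, mul_eq_zero, hf0, or_false] at hrel
        apply hpp
        have h1 : ((p.1 : ℤ) - p'.1) = 0 := by exact_mod_cast hrel
        ext <;> omega
      have hbL : |((p.2 : ℤ) - p'.2 : ℤ)| ≤ L := by
        rw [abs_le]; constructor <;> omega
      refine ⟨_, _, hb, ?_, hbL, hrel⟩
      have h1 : |(((p.1 : ℤ) - p'.1 : ℤ) : ℝ)| * |f i0| = |(((p.2 : ℤ) - p'.2 : ℤ) : ℝ)| * |f j| := by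
        rw [← abs_mul, ← abs_mul]
        have : (((p.1 : ℤ) - p'.1 : ℤ) : ℝ) * f i0 = -((((p.2 : ℤ) - p'.2 : ℤ) : ℝ) * f j) := by
          linarith
        rw [this, abs_neg]
      have h2 : |f j| ≤ |f i0| := hi0 j (Finset.mem_univ j)
      have h3 : 0 < |f i0| := abs_pos.mpr hf0
      have h4 : |(((p.1 : ℤ) - p'.1 : ℤ) : ℝ)| * |f i0| ≤ L * |f i0| := by
        rw [h1]
        apply mul_le_mul _ h2 (abs_nonneg _) (by positivity)
        have : ((|((p.2 : ℤ) - p'.2 : ℤ)| : ℤ) : ℝ) ≤ ((L : ℤ) : ℝ) := by exact_mod_cast hbL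
        simpa using this
      have h5 := le_of_mul_le_mul_right h4 h3
      have h6 : ((|((p.1 : ℤ) - p'.1 : ℤ)| : ℤ) : ℝ) ≤ ((L : ℤ) : ℝ) := by simpa using h5
      exact_mod_cast h6
  choose a b hb0 haL hbL hab using hrel
  have hdvd : ∀ j, b j ∣ Q := by
    intro j
    rw [hQ]
    have h1 : (b j).natAbs ∣ L.factorial := by
      apply Nat.dvd_factorial (Int.natAbs_pos.mpr (hb0 j))
      have h2 := hbL j
      rw [← Int.natCast_natAbs] at h2
      exact_mod_cast h2
    exact Int.natAbs_dvd.mp (Int.natCast_dvd_natCast.mpr h1)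
  choose c hcQ using hdvd
  set Y : Fin n → ℤ := fun j => -a j * c j with hY
  have hfY : ∀ j, (Q : ℝ) * f j = Y j * f i0 := by
    intro j
    rw [hcQ j, hY]
    push_cast
    have := hab j
    have h1 : (b j : ℝ) * f j = -(a j * f i0) := by linarith
    calc (b j : ℝ) * c j * f j = c j * (b j * f j) := by ring
      _ = -(a j : ℝ) * c j * f i0 := by rw [h1]; ring
  have hY0 : Y ≠ 0 := by
    intro h
    have h1 := hfY i0
    rw [h] at h1
    simp only [Pi.zero_apply, Int.cast_zero, zero_mul, mul_eq_zero, hf0, or_false] at h1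
    exact hQ0 (by exact_mod_cast h1)
  obtain ⟨g, Y', e, hg, hYg, he⟩ := exists_prim Y hY0
  have hQpos : 0 < Q := by rw [hQ]; exact_mod_cast L.factorial_pos
  have hYT : Y' ∈ T := by
    rw [hT, Fintype.mem_piFinset]
    intro j
    rw [Finset.mem_Icc, ← abs_le]
    have h1 : |Y' j| ≤ |Y j| := by
      rw [hYg j, abs_mul]
      have : 1 ≤ |g| := Int.one_le_abs hg
      nlinarith [abs_nonneg (Y' j)]
    have h2 : |Y j| ≤ L * Q := by
      rw [hY]
      simp only [neg_mul, abs_neg, abs_mul]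
      apply mul_le_mul (haL j) _ (abs_nonneg _) (by positivity)
      have h3 : |Q| = |b j| * |c j| := by rw [← abs_mul, ← hcQ j]
      rw [abs_of_pos hQpos] at h3
      have : 1 ≤ |b j| := Int.one_le_abs (hb0 j)
      nlinarith [abs_nonneg (c j)]
    exact h1.trans h2
  set c0 : ℝ := f i0 * g / Q with hc0
  have hQr : (Q : ℝ) ≠ 0 := by exact_mod_cast hQ0
  have hgr : (g : ℝ) ≠ 0 := by exact_mod_cast hg
  have hc00 : c0 ≠ 0 := by rw [hc0]; positivity
  have hval : ∀ z : Fin n → ℤ, ∑ i, f i * (z i : ℝ) = c0 * ((∑ i, Y' i * z i : ℤ) : ℝ) := by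
    intro z
    push_cast
    rw [Finset.mul_sum]
    apply Finset.sum_congr rfl
    intro i _
    have h1 := hfY i
    rw [hYg i] at h1
    push_cast at h1
    have h2 : f i = g * Y' i * f i0 / Q := by
      rw [eq_div_iff hQr]; linarith
    rw [h2, hc0]
    ring
  have hfin := hK0 Y' ⟨e, he⟩ k (hkT Y' hYT) (S.image fun s => ⌊s / c0⌋) (by
    intro z hz
    rw [Finset.mem_image]
    refine ⟨_, hS z hz, ?_⟩
    rw [hval, mul_div_cancel_left₀ _ hc00, Int.floor_intCast])
  have h1 : ((S.image fun s => ⌊s / c0⌋).card : ℝ) ≤ S.card := by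
    exact_mod_cast Finset.card_image_le
  linarith

end H912Cov
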