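import Pool.Agent.H912R3.Cov.L2
import Pool.Agent.H912R3.Cov.L3b

/-! The hollow direct sum with many integer points. -/

set_option autoImplicit false

open Set Topology

namespace H912Cov

variable {n : ℕ}

lemma rv_zero' : rv (0 : Fin n → ℤ) = 0 := by
  funext i; simp [rv]

theorem core {P0 : Set (Fin n → ℝ)} {B C : ℝ} (hB0 : 0 ≤ B) (hP : Bd P0) (hh : Hol P0)
    (hW : Wd B P0) :
    ∃ h0 : ℕ, ∀ h : ℕ, h0 ≤ h → 1 ≤ h → ∃ (D : Set ((Fin h × Bool) → Fin n → ℝ))
      (p q : (Fin h × Bool) → Fin n → ℤ), IsCompact D ∧ Convex ℝ D ∧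
      (fun j => rv (p j)) ∈ D ∧ (fun j => rv (q j)) ∈ D ∧
      (1 / 2 : ℝ) • ((fun j => rv (p j)) + fun j => rv (q j)) ∈ interior D ∧
      (∀ w : (Fin h × Bool) → Fin n → ℤ, (fun j => rv (w j)) ∉ interior D) ∧
      ∀ f : (Fin h × Bool) → Fin n → ℝ, f ≠ 0 → ∀ S : Finset ℝ,
        (∀ w : (Fin h × Bool) → Fin n → ℤ, (fun j => rv (w j)) ∈ D →
          ∑ j, ∑ l, f j l * (w j l : ℝ) ∈ S) → B * (2 * h) + C < S.card := by
  classical
  obtain ⟨P, hPb, hPh, hPW, hP0, y, hy, z, hz⟩ := prep hB0 hP hh hW
  obtain ⟨o, ho⟩ := hPb.int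
  obtain ⟨ε, hε, hball⟩ := Metric.isOpen_iff.mp isOpen_interior o ho
  have hball' : ∀ x : Fin n → ℝ, (∀ i, |x i - o i| ≤ ε / 2) → x ∈ P := by
    intro x hx
    apply interior_subset
    apply hball
    rw [Metric.mem_ball]
    apply lt_of_le_of_lt _ (half_lt_self hε)
    rw [dist_pi_le_iff (by positivity)]
    intro i
    rw [Real.dist_eq]
    exact hx i
  obtain ⟨k0, hk0⟩ := count_gen P hPb.comp hPb.conv o (ε / 2) (by positivity) hball' B C hB0 hPW
  refine ⟨k0, fun h hh0 hh1 => ?_⟩
  have : Nonempty (Fin h × Bool) := ⟨(⟨0, by omega⟩, true)⟩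
  have hcard : (Fintype.card (Fin h × Bool) : ℝ) = 2 * h := by
    rw [Fintype.card_prod, Fintype.card_fin, Fintype.card_bool]; push_cast; ring
  have hh' : (h : ℝ) ≠ 0 := by
    have : (1 : ℝ) ≤ h := by exact_mod_cast hh1
    positivity
  have hyP : y ∈ P := interior_subset hy
  have key : ∀ b : Bool, (fun j : Fin h × Bool => rv (if j.2 = b then z else 0)) ∈ DS (Fin h × Bool) P := by
    intro b
    have h1 := DS_avg (P := P) (κ := Fin h × Bool) (Finset.univ : Finset (Fin h))
      ⟨⟨0, by omega⟩, Finset.mem_univ _⟩ (fun i => (i, b)) (fun _ => y) (fun _ _ => hyP)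
    convert h1 using 1
    funext j
    obtain ⟨i, c⟩ := j
    rw [Finset.sum_apply]
    by_cases hc : c = b
    · subst hc
      rw [Finset.sum_eq_single i]
      · simp only [if_true, Pi.smul_apply, Pi.single_eq_same, Finset.card_univ, Fintype.card_fin]
        rw [hcard, smul_smul, hz]
        congr 1
        field_simp
      · intro i' _ hi'
        simp only [Pi.smul_apply]
        rw [Pi.single_eq_of_ne (by
          intro he
          exact hi' (Prod.mk.inj he).1.symm), smul_zero]
      · intro he; exact absurd (Finset.mem_univ i) he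
    · rw [if_neg hc, rv_zero']
      symm
      apply Finset.sum_eq_zero
      intro i' _
      simp only [Pi.smul_apply]
      rw [Pi.single_eq_of_ne (by
        intro he
        exact hc (Prod.mk.inj he).2), smul_zero]
  refine ⟨DS (Fin h × Bool) P, fun j => if j.2 = true then z else 0,
    fun j => if j.2 = false then z else 0, DS_compact hPb.comp, DS_convex P, key true, key false,
    ?_, ?_, ?_⟩
  · have e : (1 / 2 : ℝ) • ((fun j : Fin h × Bool => rv (if j.2 = true then z else 0)) +
        fun j : Fin h × Bool => rv (if j.2 = false then z else 0)) = fun _ => y := by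
      funext j
      obtain ⟨i, c⟩ := j
      simp only [Pi.smul_apply, Pi.add_apply]
      cases c
      · simp only [Bool.false_eq_true, if_false, if_true]
        rw [rv_zero', zero_add, hz, smul_smul]
        norm_num
      · simp only [Bool.true_eq_false, if_false, if_true]
        rw [rv_zero', add_zero, hz, smul_smul]
        norm_num
    rw [e]
    exact DS_interior hy
  · intro w
    exact DS_hollow hPb hPh hP0 _ fun j => ⟨w j, rfl⟩
  · intro f hf S hS
    obtain ⟨j, hj⟩ : ∃ j, f j ≠ 0 := by
      by_contra hcon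
      push Not at hcon
      exact hf (funext hcon)
    have h1 := hk0 (2 * h) (by omega) (f j) hj S (by
      rintro v ⟨x, hx, hv⟩
      have h2 := hS (Pi.single j v) (by
        have h3 := DS_single (κ := Fin h × Bool) hx j
        convert h3 using 1
        funext j'
        by_cases hjj : j' = j
        · subst hjj
          rw [Pi.single_eq_same, Pi.single_eq_same, hv, hcard]
          push_cast
          rfl
        · rw [Pi.single_eq_of_ne hjj, Pi.single_eq_of_ne hjj, rv_zero'])
      rw [Finset.sum_eq_single j] at h2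
      · rw [Pi.single_eq_same] at h2
        exact h2
      · intro j' _ hjj
        rw [Pi.single_eq_of_ne hjj]
        simp
      · intro he; exact absurd (Finset.mem_univ j) he)
    push_cast at h1
    exact h1

/-! ### transfer to Euclidean space -/

/-- the coordinates of `ℝ × ℝ × (κ → ℝⁿ)` -/
def cval {κ : Type} (x : ℝ × ℝ × (κ → Fin n → ℝ)) : Option (Option (κ × Fin n)) → ℝ
  | none => x.1
  | some none => x.2.1
  | some (some (j, l)) => x.2.2 j l

/-- the coordinates as a linear equivalence -/
noncomputable def LE {κ : Type} [Fintype κ] {d : ℕ} (σ : Fin d ≃ Option (Option (κ × Fin n))) :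
    (ℝ × ℝ × (κ → Fin n → ℝ)) ≃ₗ[ℝ] EuclideanSpace ℝ (Fin d) where
  toFun x := WithLp.toLp 2 (fun i => cval x (σ i))
  invFun y := (y (σ.symm none), y (σ.symm (some none)), fun j l => y (σ.symm (some (some (j, l)))))
  map_add' x y := by
    ext i
    simp only [PiLp.add_apply]
    rcases σ i with _ | _ | ⟨j, l⟩ <;> rfl
  map_smul' c x := by
    ext i
    simp only [PiLp.smul_apply, RingHom.id_apply]
    rcases σ i with _ | _ | ⟨j, l⟩ <;> rfl
  left_inv x := by
    simp only [Equiv.apply_symm_apply]
    rfl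
  right_inv y := by
    ext i
    simp only
    conv_rhs => rw [← σ.symm_apply_apply i]
    rcases σ i with _ | _ | ⟨j, l⟩ <;> rfl

lemma LE_apply {κ : Type} [Fintype κ] {d : ℕ} (σ : Fin d ≃ Option (Option (κ × Fin n)))
    (x : ℝ × ℝ × (κ → Fin n → ℝ)) (i : Fin d) : LE σ x i = cval x (σ i) := rfl

lemma inner_LE {κ : Type} [Fintype κ] {d : ℕ} (σ : Fin d ≃ Option (Option (κ × Fin n)))
    (x : ℝ × ℝ × (κ → Fin n → ℝ)) (u : EuclideanSpace ℝ (Fin d)) :
    inner ℝ (LE σ x) u = x.1 * u (σ.symm none) + (x.2.1 * u (σ.symm (some none)) +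
      ∑ j, ∑ l, u (σ.symm (some (some (j, l)))) * x.2.2 j l) := by
  rw [PiLp.inner_apply]
  rw [Fintype.sum_equiv σ (fun i => inner ℝ (LE σ x i) (u i))
    (fun o => cval x o * u (σ.symm o)) (fun i => by
      rw [LE_apply, σ.symm_apply_apply]
      simp [mul_comm])]
  rw [Fintype.sum_option, Fintype.sum_option, Fintype.sum_prod_type]
  simp only [cval]
  congr 2
  exact Finset.sum_congr rfl fun j _ => Finset.sum_congr rfl fun l _ => mul_comm _ _

end H912Cov
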