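import Mathlib

/-!
Functions on a lattice whose iterated differences vanish, and the superadditivity lemma: if the
interior of every translate of a convex set contains a lattice point, then a nonzero function of
degree at most `n` does not vanish on the lattice points of a translate of `(n+1)` times the set.
-/

set_option autoImplicit false

namespace H912Cov

variable {G : Type*} [AddCommGroup G]

/-- `PD n g`: all `n`-fold differences of `g` vanish (polynomial functions of degree `< n`) -/
def PD : ℕ → (G → ℝ) → Prop
  | 0, g => g = 0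
  | n + 1, g => ∀ v, PD n (fun u => g (u + v) - g u)

lemma PD_zero (n : ℕ) : PD n (0 : G → ℝ) := by
  induction n with
  | zero => rfl
  | succ n ih =>
    intro v
    have : (fun u : G => (0 : G → ℝ) (u + v) - (0 : G → ℝ) u) = 0 := by
      funext u; simp
    rw [this]
    exact ih

lemma PD_add {n : ℕ} : ∀ {g h : G → ℝ}, PD n g → PD n h → PD n (fun u => g u + h u) := by
  induction n with
  | zero =>
    intro g h hg hh
    have hg' : g = 0 := hg
    have hh' : h = 0 := hh
    subst hg' hh'
    show (fun u : G => (0 : G → ℝ) u + (0 : G → ℝ) u) = 0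
    funext u; simp
  | succ n ih =>
    intro g h hg hh v
    have h1 := ih (hg v) (hh v)
    have e : (fun u => g (u + v) + h (u + v) - (g u + h u)) =
        fun u => (g (u + v) - g u) + (h (u + v) - h u) := by
      funext u; ring
    show PD n (fun u => g (u + v) + h (u + v) - (g u + h u))
    rw [e]
    exact h1

lemma PD_smul {n : ℕ} (c : ℝ) : ∀ {g : G → ℝ}, PD n g → PD n (fun u => c * g u) := by
  induction n with
  | zero =>
    intro g hg
    have hg' : g = 0 := hg
    subst hg'
    show (fun u : G => c * (0 : G → ℝ) u) = 0
    funext u; simp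
  | succ n ih =>
    intro g hg v
    have h1 := ih (hg v)
    have e : (fun u => c * g (u + v) - c * g u) = fun u => c * (g (u + v) - g u) := by
      funext u; ring
    show PD n (fun u => c * g (u + v) - c * g u)
    rw [e]
    exact h1

lemma PD_shift {n : ℕ} (w : G) : ∀ {g : G → ℝ}, PD n g → PD n (fun u => g (u + w)) := by
  induction n with
  | zero =>
    intro g hg
    have hg' : g = 0 := hg
    subst hg'
    show (fun u : G => (0 : G → ℝ) (u + w)) = 0
    funext u; simp
  | succ n ih =>
    intro g hg v
    have h1 := ih (hg v)
    show PD n (fun u => g (u + v + w) - g (u + w))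
    have e : (fun u => g (u + v + w) - g (u + w)) = fun u => g (u + w + v) - g (u + w) := by
      funext u; rw [add_right_comm]
    rw [e]
    exact h1

/-- multiplication by an affine function raises the degree by one -/
lemma PD_mul {n : ℕ} (a : G → ℝ) (lam : G → ℝ) (ha : ∀ u v, a (u + v) = a u + lam v) :
    ∀ {g : G → ℝ}, PD n g → PD (n + 1) (fun u => a u * g u) := by
  induction n with
  | zero =>
    intro g hg
    have hg' : g = 0 := hg
    subst hg'
    have : (fun u : G => a u * (0 : G → ℝ) u) = 0 := by funext u; simp
    rw [this]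
    exact PD_zero 1
  | succ n ih =>
    intro g hg v
    have h1 := ih (hg v)
    have h2 := PD_smul (lam v) (PD_shift v hg)
    have h3 := PD_add h1 h2
    have e : (fun u => a (u + v) * g (u + v) - a u * g u) =
        fun u => a u * (g (u + v) - g u) + lam v * g (u + v) := by
      funext u; rw [ha]; ring
    show PD (n + 1) (fun u => a (u + v) * g (u + v) - a u * g u)
    rw [e]
    exact h3

lemma PD_prod {N : ℕ} (a : Fin N → G → ℝ) (lam : Fin N → G → ℝ)
    (ha : ∀ i u v, a i (u + v) = a i u + lam i v) : PD (N + 1) (fun u => ∏ i, a i u) := by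
  induction N with
  | zero =>
    intro v
    show (fun u : G => (∏ i : Fin 0, a i (u + v)) - ∏ i : Fin 0, a i u) = 0
    funext u; simp
  | succ N ih =>
    have h1 := ih (fun i => a i.succ) (fun i => lam i.succ) (fun i => ha i.succ)
    have h2 := PD_mul (a 0) (lam 0) (ha 0) h1
    have e : (fun u => ∏ i : Fin (N + 1), a i u) = fun u => a 0 u * ∏ i : Fin N, a i.succ u := by
      funext u; rw [Fin.prod_univ_succ]
    rw [e]
    exact h2

/-! ### the superadditivity lemma -/

variable {E : Type*} [NormedAddCommGroup E] [NormedSpace ℝ E]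

/-- Let `ι : G → E` be additive and let `K` be such that the interior of every translate of `K`
contains a point of `ι(G)`, and `ι(G)` spans... : any function `g` with `PD (n+1) g` vanishing at
all `u` with `ι u` in `t + (n+1) K` is zero. -/
theorem super (ι : G →+ E) (K : Set E) (hK : Convex ℝ K)
    (hcov : ∀ s : E, ∃ u : G, ι u ∈ interior ((fun x => x + s) '' K)) (n : ℕ) :
    ∀ (g : G → ℝ) (t : E), PD (n + 1) g →
      (∀ u : G, (∃ x ∈ K, ι u = ((n : ℝ) + 1) • x + t) → g u = 0) → g = 0 := by
  have hcov' : ∀ s : E, ∃ u : G, ∃ x ∈ K, ι u = x + s := by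
    intro s
    obtain ⟨u, hu⟩ := hcov s
    obtain ⟨x, hx, hxu⟩ := interior_subset hu
    exact ⟨u, x, hx, hxu.symm⟩
  induction n with
  | zero =>
    intro g t hg h0
    obtain ⟨u, x, hx, hu⟩ := hcov' t
    have hgu : g u = 0 := h0 u ⟨x, hx, by rw [hu]; simp⟩
    funext w
    have h1 : (fun z => g (z + (w - u)) - g z) = 0 := hg (w - u)
    have h2 := congrFun h1 u
    simp only [Pi.zero_apply] at h2
    have h3 : u + (w - u) = w := by abel
    rw [h3, hgu] at h2
    simpa using h2
  | succ n ih =>
    intro g t hg h0
    -- two lattice points of one translate differ by a period of `g`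
    have per : ∀ (s : E) (v v' : G), (∃ x ∈ K, ι v = x + s) → (∃ x ∈ K, ι v' = x + s) →
        ∀ u, g (u + (v - v')) = g u := by
      rintro s v v' ⟨x, hx, hv⟩ ⟨x', hx', hv'⟩
      have hh : (fun u => g (u + v) - g (u + v')) = 0 := by
        apply ih _ (t - s)
        · have h1 := hg (v - v')
          have h2 := PD_shift v' h1
          have e : (fun u => g (u + v) - g (u + v')) =
              fun u => g (u + v' + (v - v')) - g (u + v') := by
            funext u
            congr 2
            abel
          rw [e]
          exact h2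
        · rintro u ⟨z, hz, hu⟩
          have key : ∀ (w : G) (y : E), y ∈ K → ι w = y + s → g (u + w) = 0 := by
            intro w y hy hw
            apply h0
            have hn : (0 : ℝ) < (n : ℝ) + 1 + 1 := by positivity
            refine ⟨(((n : ℝ) + 1) / ((n : ℝ) + 1 + 1)) • z + (1 / ((n : ℝ) + 1 + 1)) • y,
              hK hz hy (by positivity) (by positivity) (by field_simp), ?_⟩
            rw [map_add, hu, hw]
            push_cast
            rw [smul_add, smul_smul, smul_smul, mul_div_cancel₀ _ hn.ne',
              mul_one_div_cancel hn.ne', one_smul]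
            abel
          show g (u + v) - g (u + v') = 0
          rw [key v x hx hv, key v' x' hx' hv', sub_zero]
      intro u
      have h3 := congrFun hh (u - v')
      simp only [Pi.zero_apply] at h3
      have e1 : u - v' + v = u + (v - v') := by abel
      have e2 : u - v' + v' = u := by abel
      rw [e1, e2] at h3
      linarith
    -- the periods form a group containing the lattice
    obtain ⟨v0, x0, hx0, hv0⟩ := hcov' 0
    let A : Set E := {s | ∃ v : G, ι v ∈ interior ((fun x => x + s) '' K) ∧
      ∀ u, g (u + (v - v0)) = g u}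
    let B : Set E := {s | ∃ v : G, ι v ∈ interior ((fun x => x + s) '' K) ∧
      ¬ ∀ u, g (u + (v - v0)) = g u}
    have hint : ∀ (s : E) (w : E), w ∈ interior ((fun x => x + s) '' K) ↔ w - s ∈ interior K := by
      intro s w
      have e : (fun x => x + s) '' K = (Homeomorph.addRight s) '' K := rfl
      rw [e, ← Homeomorph.image_interior]
      constructor
      · rintro ⟨x, hx, hxw⟩
        have : w - s = x := by
          rw [← hxw]; simp
        rw [this]; exact hx
      · intro h
        exact ⟨w - s, h, by simp⟩
    have hopen : ∀ P : G → Prop,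
        IsOpen {s | ∃ v : G, ι v ∈ interior ((fun x => x + s) '' K) ∧ P v} := by
      intro P
      have e : {s | ∃ v : G, ι v ∈ interior ((fun x => x + s) '' K) ∧ P v} =
          ⋃ v : {v : G // P v}, (fun s => ι v - s) ⁻¹' interior K := by
        ext s
        simp only [Set.mem_ofPred_eq, Set.mem_iUnion, Set.mem_preimage, hint, Subtype.exists,
          exists_prop]
        exact ⟨fun ⟨v, h1, h2⟩ => ⟨v, h2, h1⟩, fun ⟨v, h1, h2⟩ => ⟨v, h2, h1⟩⟩
      rw [e]
      exact isOpen_iUnion fun v => isOpen_interior.preimage (by fun_prop)
    have hAB : Aᶜ = B := by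
      ext s
      constructor
      · intro hs
        obtain ⟨v, hv⟩ := hcov s
        refine ⟨v, hv, fun h => hs ⟨v, hv, h⟩⟩
      · rintro ⟨v, hv, h⟩ ⟨v', hv', h'⟩
        apply h
        intro u
        have hp := per s v v' (by
          obtain ⟨x, hx, e⟩ := interior_subset hv
          exact ⟨x, hx, e.symm⟩) (by
          obtain ⟨x, hx, e⟩ := interior_subset hv'
          exact ⟨x, hx, e.symm⟩)
        have e : u + (v - v0) = (u + (v' - v0)) + (v - v') := by abel
        rw [e, hp, h']
    have hclopen : IsClopen A := by
      refine ⟨?_, hopen _⟩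
      rw [← isOpen_compl_iff, hAB]
      exact hopen _
    have hAne : A.Nonempty := by
      obtain ⟨v, hv⟩ := hcov 0
      refine ⟨0, v, hv, per 0 v v0 ?_ ⟨x0, hx0, hv0⟩⟩
      obtain ⟨x, hx, e⟩ := interior_subset hv
      exact ⟨x, hx, e.symm⟩
    have hA : A = Set.univ := hclopen.eq_univ hAne
    -- every element of the lattice is a period
    have hper : ∀ (w u : G), g (u + w) = g u := by
      intro w u
      have h1 : ι w ∈ A := by rw [hA]; trivial
      obtain ⟨v, hv, hvp⟩ := h1
      -- `v - w` lies in `K` itself
      obtain ⟨x, hx, e⟩ := interior_subset hv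
      have h2 := per (ι w) v (v0 + w) ⟨x, hx, e.symm⟩ ⟨x0, hx0, by
        rw [map_add, hv0]; abel⟩
      -- `v - v0` and `v - v0 - w` are periods
      have h3 := h2 (u + w)
      have e3 : u + w + (v - (v0 + w)) = u + (v - v0) := by abel
      rw [e3, hvp] at h3
      exact h3.symm
    obtain ⟨u1, x1, hx1, hu1⟩ := hcov' (((n : ℝ) + 1) • x0 + t)
    have h1 : g u1 = 0 := by
      apply h0
      have hn : (0 : ℝ) < (n : ℝ) + 1 + 1 := by positivity
      refine ⟨(((n : ℝ) + 1) / ((n : ℝ) + 1 + 1)) • x0 + (1 / ((n : ℝ) + 1 + 1)) • x1,
        hK hx0 hx1 (by positivity) (by positivity) (by field_simp), ?_⟩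
      rw [hu1]
      push_cast
      rw [smul_add, smul_smul, smul_smul, mul_div_cancel₀ _ hn.ne',
        mul_one_div_cancel hn.ne', one_smul]
      abel
    funext w
    have h2 := hper (w - u1) u1
    have e2 : u1 + (w - u1) = w := by abel
    rw [e2, h1] at h2
    simpa using h2

end H912Cov
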