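import Pool.Agent.H912R3.Cov.Core

/-! A lower bound for the covering constant from a wide hollow body. -/

set_option autoImplicit false

open Set Topology

namespace H912Cov

/-- `x` is an integer point -/
def IP {d : ℕ} (x : EuclideanSpace ℝ (Fin d)) : Prop := ∀ i, ∃ z : ℤ, x i = (z : ℝ)

/-- the property used in dimension `d`: integer points on two hyperplanes lie on at most `m ≤ 2 c`
parallel ones -/
def Two (d : ℕ) (c : ℝ) : Prop :=
  ∀ K : Set (EuclideanSpace ℝ (Fin d)), IsCompact K → Convex ℝ K → (interior K).Nonempty →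
    (∃ u v : EuclideanSpace ℝ (Fin d), u ≠ 0 ∧ v ≠ 0 ∧
      ∀ x ∈ K, IP x → inner ℝ x u = 0 ∨ inner ℝ x v = 0) →
    ∃ m : ℕ, (m : ℝ) ≤ c * 2 ∧ ∃ (u : EuclideanSpace ℝ (Fin d)) (s : Fin m → ℝ), u ≠ 0 ∧
      ∀ x ∈ K, IP x → ∃ i, inner ℝ x u = s i

theorem lower {n : ℕ} {A : ℝ} (hA : 0 ≤ A)
    (hAdm : ∀ h0 : ℕ, ∃ h : ℕ, h0 ≤ h ∧ Two (2 * h * n + 2) (A * ((2 * h * n + 2 : ℕ) : ℝ)))
    {P0 : Set (Fin n → ℝ)} (hP : Bd P0) (hh : Hol P0) : ¬ Wd (2 * A * n) P0 := by
  classical
  intro hW
  obtain ⟨h0, hcore⟩ := core (B := 2 * A * n) (C := 4 * A) (by positivity) hP hh hW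
  obtain ⟨h, hhh, hTwo⟩ := hAdm (max h0 1)
  have hh0 : h0 ≤ h := (le_max_left _ _).trans hhh
  have hh1 : 1 ≤ h := (le_max_right _ _).trans hhh
  obtain ⟨D, p, q, hDc, hDconv, hpD, hqD, hm, hDh, hcount⟩ := hcore h hh0 hh1
  set X : ℝ := 2 * A * n * (2 * h) + 4 * A with hX
  have hX0 : 0 ≤ X := by positivity
  set N0 : ℕ := ⌈X⌉₊ + 1 with hN0
  have hXN : X < N0 := by
    have := Nat.le_ceil X
    rw [hN0]; push_cast; linarith
  have ha : (0 : ℝ) < N0 := by linarith
  set K := Lift D (fun j => rv (p j)) (fun j => rv (q j)) (N0 : ℝ) with hK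
  have hKc : IsCompact K := lift_compact hDc
  have hKconv : Convex ℝ K := lift_convex
  have hKint : (interior K).Nonempty := lift_interior ha hm
  -- the index equivalence
  have hcard : Fintype.card (Option (Option ((Fin h × Bool) × Fin n))) = 2 * h * n + 2 := by
    rw [Fintype.card_option, Fintype.card_option, Fintype.card_prod, Fintype.card_prod,
      Fintype.card_fin, Fintype.card_fin, Fintype.card_bool]
    ring
  let σ : Fin (2 * h * n + 2) ≃ Option (Option ((Fin h × Bool) × Fin n)) :=
    (Fintype.equivFinOfCardEq hcard).symm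
  let T := (LE (n := n) σ).toContinuousLinearEquiv
  have hT : ∀ x, T x = LE σ x := fun x => rfl
  -- integer points
  have hint : ∀ x : ℝ × ℝ × ((Fin h × Bool) → Fin n → ℝ), IP (T x) →
      ∃ (s t : ℤ) (w : (Fin h × Bool) → Fin n → ℤ), x = ((s : ℝ), (t : ℝ), fun j => rv (w j)) := by
    intro x hx
    have hx' : ∀ o, ∃ z : ℤ, cval x o = z := by
      intro o
      obtain ⟨z, hz⟩ := hx (σ.symm o)
      refine ⟨z, ?_⟩
      rw [← hz, hT, LE_apply, σ.apply_symm_apply]
    obtain ⟨s, hs⟩ := hx' none
    obtain ⟨t, ht⟩ := hx' (some none)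
    choose w hw using fun (j : Fin h × Bool) (l : Fin n) => hx' (some (some (j, l)))
    refine ⟨s, t, w, ?_⟩
    refine Prod.ext hs (Prod.ext ht ?_)
    funext j l
    exact hw j l
  have hint' : ∀ (s t : ℤ) (w : (Fin h × Bool) → Fin n → ℤ),
      IP (T ((s : ℝ), (t : ℝ), fun j => rv (w j))) := by
    intro s t w i
    rw [hT, LE_apply]
    rcases σ i with _ | _ | ⟨j, l⟩
    · exact ⟨s, rfl⟩
    · exact ⟨t, rfl⟩
    · exact ⟨w j l, rfl⟩
  have hval : ∀ (u : EuclideanSpace ℝ (Fin (2 * h * n + 2)))
      (x : ℝ × ℝ × ((Fin h × Bool) → Fin n → ℝ)),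
      inner ℝ (T x) u = x.1 * u (σ.symm none) + (x.2.1 * u (σ.symm (some none)) +
        ∑ j, ∑ l, u (σ.symm (some (some (j, l)))) * x.2.2 j l) := fun u x => by
    rw [hT]; exact inner_LE σ x u
  obtain ⟨m, hm2, u, s, hu, hcov⟩ := hTwo (T '' K) (hKc.image T.continuous)
    (by
      have := hKconv.linear_image T.toLinearEquiv.toLinearMap
      exact this)
    (by
      have e : T '' K = T.toHomeomorph '' K := rfl
      rw [e, ← Homeomorph.image_interior]
      exact hKint.image _)
    (by
      refine ⟨EuclideanSpace.single (σ.symm none) 1, EuclideanSpace.single (σ.symm (some none)) 1,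
        ?_, ?_, ?_⟩
      · intro h; simpa using congrArg (fun v => v (σ.symm none)) h
      · intro h; simpa using congrArg (fun v => v (σ.symm (some none))) h
      · rintro _ ⟨x, hx, rfl⟩ hxi
        obtain ⟨s, t, w, rfl⟩ := hint x hxi
        have e1 : inner ℝ (T ((s : ℝ), (t : ℝ), fun j => rv (w j)))
            (EuclideanSpace.single (σ.symm none) (1 : ℝ)) = s := by
          rw [hval]
          simp
        have e2 : inner ℝ (T ((s : ℝ), (t : ℝ), fun j => rv (w j)))
            (EuclideanSpace.single (σ.symm (some none)) (1 : ℝ)) = t := by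
          rw [hval]
          simp
        rw [e1, e2]
        by_contra hcon
        push Not at hcon
        exact hDh w (lift_key ha hDconv hpD hqD hm hx hcon.1 hcon.2))
  -- the finite set of values
  let S : Finset ℝ := Finset.univ.image s
  have hScard : (S.card : ℝ) ≤ X := by
    have h1 : S.card ≤ m := by
      have := Finset.card_image_le (s := (Finset.univ : Finset (Fin m))) (f := s)
      rwa [Finset.card_univ, Fintype.card_fin] at this
    have h2 : (S.card : ℝ) ≤ m := by exact_mod_cast h1
    refine h2.trans (hm2.trans (le_of_eq ?_))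
    rw [hX]; push_cast; ring
  have hS : ∀ (s' t' : ℤ) (w : (Fin h × Bool) → Fin n → ℤ),
      ((s' : ℝ), (t' : ℝ), fun j => rv (w j)) ∈ K →
      (s' : ℝ) * u (σ.symm none) + ((t' : ℝ) * u (σ.symm (some none)) +
        ∑ j, ∑ l, u (σ.symm (some (some (j, l)))) * (w j l : ℝ)) ∈ S := by
    intro s' t' w hx
    obtain ⟨i, hi⟩ := hcov _ ⟨_, hx, rfl⟩ (hint' s' t' w)
    rw [hval] at hi
    rw [Finset.mem_image]
    exact ⟨i, Finset.mem_univ i, hi.symm⟩
  -- a needle gives many values
  have needle : ∀ (α β : ℝ), α ≠ 0 → (∀ i : ℕ, i ≤ N0 → (i : ℝ) * α + β ∈ S) → False := by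
    intro α β hα hi
    have h1 : ((Finset.range (N0 + 1)).image fun i : ℕ => (i : ℝ) * α + β) ⊆ S := by
      intro v hv
      rw [Finset.mem_image] at hv
      obtain ⟨i, hi', rfl⟩ := hv
      exact hi i (Nat.lt_succ_iff.mp (Finset.mem_range.mp hi'))
    have h2 := Finset.card_le_card h1
    rw [Finset.card_image_of_injective _ (by
      intro i j hij
      have h3 : (i : ℝ) * α = (j : ℝ) * α := by simpa using hij
      have h4 := mul_right_cancel₀ hα h3
      exact_mod_cast h4), Finset.card_range] at h2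
    have h3 : ((N0 + 1 : ℕ) : ℝ) ≤ S.card := by exact_mod_cast h2
    push_cast at h3
    linarith
  by_cases hα : u (σ.symm none) = 0
  · by_cases hβ : u (σ.symm (some none)) = 0
    · -- the functional lives on `D`
      have hf : (fun (j : Fin h × Bool) (l : Fin n) => u (σ.symm (some (some (j, l))))) ≠ 0 := by
        intro h
        apply hu
        ext i
        have : ∀ o, u (σ.symm o) = 0 := by
          rintro (_ | _ | ⟨j, l⟩)
          · exact hα
          · exact hβ
          · exact congrFun (congrFun h j) l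
        rw [← σ.symm_apply_apply i]
        exact this _
      have h1 := hcount _ hf S (by
        intro w hw
        have h2 := hS 0 0 w (by
          have := lift_base (D := D) (p := fun j => rv (p j)) (q := fun j => rv (q j))
            (a := (N0 : ℝ)) hw
          simpa using this)
        simpa using h2)
      linarith
    · refine needle (u (σ.symm (some none)))
        (∑ j, ∑ l, u (σ.symm (some (some (j, l)))) * (q j l : ℝ)) hβ fun i hi => ?_
      have h2 := hS 0 (i : ℤ) q (by
        have := lift_q (D := D) (p := fun j => rv (p j)) (q := fun j => rv (q j))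
          (a := (N0 : ℝ)) (t := (i : ℝ)) ⟨by
            have : (0 : ℝ) ≤ i := by positivity
            linarith, by exact_mod_cast hi⟩
        simpa using this)
      simpa using h2
  · refine needle (u (σ.symm none))
      ((0 : ℝ) * u (σ.symm (some none)) +
        ∑ j, ∑ l, u (σ.symm (some (some (j, l)))) * (p j l : ℝ)) hα fun i hi => ?_
    have h2 := hS (i : ℤ) 0 p (by
      have := lift_p (D := D) (p := fun j => rv (p j)) (q := fun j => rv (q j))
        (a := (N0 : ℝ)) (s := (i : ℝ)) ⟨by
          have : (0 : ℝ) ≤ i := by positivity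
          linarith, by exact_mod_cast hi⟩
      simpa using this)
    simpa using h2

end H912Cov
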