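import Pool.Agent.H912R3.Cov.L3

/-! Preparation of a hollow body: it touches the lattice at `0` and twice the body does not
stay hollow. -/

set_option autoImplicit false

open Set Topology

namespace H912Cov

variable {n : ℕ}

/-- compact, convex, with interior points -/
structure Bd (P : Set (Fin n → ℝ)) : Prop where
  comp : IsCompact P
  conv : Convex ℝ P
  int : (interior P).Nonempty

/-- no integer point in the interior -/
def Hol (P : Set (Fin n → ℝ)) : Prop := ∀ z : Fin n → ℤ, rv z ∉ interior P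

/-- width larger than `B` in every nonzero integer direction -/
def Wd (B : ℝ) (P : Set (Fin n → ℝ)) : Prop :=
  ∀ Y : Fin n → ℤ, Y ≠ 0 → ∀ a : ℝ, ∃ x ∈ P, ¬ (a ≤ lf Y x ∧ lf Y x ≤ a + B)

/-- `x ↦ c (x - w)` -/
def aff (c : ℝ) (w x : Fin n → ℝ) : Fin n → ℝ := c • (x - w)

/-- the same map as a homeomorphism -/
noncomputable def affH (c : ℝ) (hc : c ≠ 0) (w : Fin n → ℝ) : (Fin n → ℝ) ≃ₜ (Fin n → ℝ) :=
  (Homeomorph.subRight w).trans (Homeomorph.smulOfNeZero c hc)

lemma affH_apply (c : ℝ) (hc : c ≠ 0) (w x : Fin n → ℝ) : affH c hc w x = aff c w x := rfl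

lemma interior_aff (c : ℝ) (hc : c ≠ 0) (w : Fin n → ℝ) (A : Set (Fin n → ℝ)) :
    interior (aff c w '' A) = aff c w '' interior A :=
  ((affH c hc w).image_interior A).symm

lemma Bd.aff {A : Set (Fin n → ℝ)} (hA : Bd A) (c : ℝ) (hc : c ≠ 0) (w : Fin n → ℝ) :
    Bd (aff c w '' A) := by
  refine ⟨hA.comp.image (affH c hc w).continuous, ?_, ?_⟩
  · rintro _ ⟨x, hx, rfl⟩ _ ⟨y, hy, rfl⟩ a b ha hb hab
    refine ⟨a • x + b • y, hA.conv hx hy ha hb hab, ?_⟩
    unfold H912Cov.aff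
    have : w = a • w + b • w := by rw [← add_smul, hab, one_smul]
    nth_rw 1 [this]
    module
  · rw [interior_aff c hc w]
    exact hA.int.image _

lemma Wd.aff {A : Set (Fin n → ℝ)} {B : ℝ} (hB0 : 0 ≤ B) (hA : Wd B A) (c : ℝ) (hc : 1 ≤ c)
    (w : Fin n → ℝ) : Wd B (aff c w '' A) := by
  intro Y hY a
  obtain ⟨x, hx, hn⟩ := hA Y hY (a / c + lf Y w)
  refine ⟨_, ⟨x, hx, rfl⟩, fun h => hn ?_⟩
  have hc0 : 0 < c := by linarith
  have e : lf Y (H912Cov.aff c w x) = c * (lf Y x - lf Y w) := by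
    unfold H912Cov.aff
    rw [lf_smul]
    have : lf Y (x - w) = lf Y x - lf Y w := by
      have := lf_add Y (x - w) w
      rw [sub_add_cancel] at this
      linarith
    rw [this]
  rw [e] at h
  have h1 : a / c ≤ lf Y x - lf Y w := by
    rw [div_le_iff₀ hc0]; linarith [h.1]
  have h2 : lf Y x - lf Y w ≤ (a + B) / c := by
    rw [le_div_iff₀ hc0]; linarith [h.2]
  have h3 : (a + B) / c ≤ a / c + B := by
    rw [add_div]
    have : B / c ≤ B := div_le_self hB0 hc
    linarith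
  constructor <;> linarith

lemma finite_int (o : Fin n → ℝ) (c : ℝ) : {z : Fin n → ℤ | ‖rv z - o‖ ≤ c}.Finite := by
  apply (Set.finite_Icc (fun i => ⌊o i - c⌋) (fun i => ⌈o i + c⌉)).subset
  intro z hz
  have h1 : ∀ i, |(z i : ℝ) - o i| ≤ c := by
    intro i
    have h2 := (norm_le_pi_norm (rv z - o) i).trans hz
    simpa [rv] using h2
  constructor
  · intro i
    have h2 := (abs_le.mp (h1 i)).1
    have h3 : ((⌊o i - c⌋ : ℤ) : ℝ) ≤ z i := (Int.floor_le _).trans (by linarith)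
    exact_mod_cast h3
  · intro i
    have h2 := (abs_le.mp (h1 i)).2
    have h3 : (z i : ℝ) ≤ (⌈o i + c⌉ : ℤ) := le_trans (by linarith) (Int.le_ceil _)
    exact_mod_cast h3

/-- touching: a larger homothetic hollow body containing an integer point -/
lemma touch {P : Set (Fin n → ℝ)} (hP : Bd P) (hh : Hol P) :
    ∃ (r : ℝ) (w : Fin n → ℝ), 1 ≤ r ∧ Hol (aff r w '' P) ∧
      ∃ z : Fin n → ℤ, rv z ∈ aff r w '' P := by
  obtain ⟨o, ho⟩ := hP.int
  set K : Set (Fin n → ℝ) := aff 1 o '' P with hK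
  have hKb : Bd K := hP.aff 1 one_ne_zero o
  have hK0 : (0 : Fin n → ℝ) ∈ interior K := by
    rw [hK, interior_aff 1 one_ne_zero]
    exact ⟨o, ho, by simp [aff]⟩
  have hKn : K ∈ 𝓝 (0 : Fin n → ℝ) := mem_interior_iff_mem_nhds.mp hK0
  obtain ⟨R, hR⟩ := hKb.comp.isBounded.subset_closedBall (0 : Fin n → ℝ)
  have hR0 : 0 ≤ R := by
    have := hR (interior_subset hK0)
    simpa using (Metric.mem_closedBall.mp this)
  -- the gauge
  let G : (Fin n → ℤ) → ℝ := fun z => gauge K (rv z - o)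
  have hGn : ∀ z, ‖rv z - o‖ ≤ (R + 1) * G z := by
    intro z
    have h1 : K ⊆ Metric.closedBall 0 (R + 1) := hR.trans (Metric.closedBall_subset_closedBall (by linarith))
    have h2 := le_gauge_of_subset_closedBall (absorbent_nhds_zero hKn) (by linarith : 0 ≤ R + 1) h1
      (x := rv z - o)
    have h3 : (0 : ℝ) < R + 1 := by linarith
    rw [div_le_iff₀ h3] at h2
    linarith
  have hfin : {z : Fin n → ℤ | G z ≤ G 0}.Finite := by
    apply (finite_int o ((R + 1) * G 0)).subset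
    intro z hz
    exact (hGn z).trans (mul_le_mul_of_nonneg_left hz (by linarith))
  obtain ⟨zs, hzs, hmin⟩ := Set.exists_min_image _ G hfin ⟨0, le_refl (G 0)⟩
  have hmin' : ∀ z, G zs ≤ G z := by
    intro z
    by_cases h : G z ≤ G 0
    · exact hmin z h
    · push Not at h
      exact hzs.trans h.le
  set r := G zs with hr
  have hr1 : 1 ≤ r := by
    by_contra hcon
    push Not at hcon
    apply hh zs
    have h1 : rv zs - o ∈ interior K := (gauge_lt_one_iff_mem_interior hKb.conv hKn).mp hcon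
    rw [hK, interior_aff 1 one_ne_zero] at h1
    obtain ⟨x, hx, hxe⟩ := h1
    have : rv zs = x := by
      unfold aff at hxe
      rw [one_smul] at hxe
      exact (sub_left_injective hxe).symm
    rw [this]; exact hx
  have hr0 : 0 < r := by linarith
  refine ⟨r, ((r - 1) / r) • o, hr1, ?_, zs, ?_⟩
  · intro z hz
    rw [interior_aff r hr0.ne'] at hz
    obtain ⟨x, hx, hxe⟩ := hz
    have h1 : x - o ∈ interior K := by
      rw [hK, interior_aff 1 one_ne_zero]
      exact ⟨x, hx, by simp [aff]⟩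
    have h2 : gauge K (x - o) < 1 := (gauge_lt_one_iff_mem_interior hKb.conv hKn).mpr h1
    have h3 : rv z - o = r • (x - o) := by
      rw [← hxe]
      unfold aff
      rw [smul_sub, smul_smul, mul_div_cancel₀ _ hr0.ne']
      module
    have h4 : G z = r * gauge K (x - o) := by
      show gauge K (rv z - o) = _
      rw [h3, gauge_smul_of_nonneg hr0.le, smul_eq_mul]
    have h5 := hmin' z
    rw [h4] at h5
    nlinarith
  · have h1 : gauge K (r⁻¹ • (rv zs - o)) = 1 := by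
      rw [gauge_smul_of_nonneg (by positivity), smul_eq_mul]
      exact inv_mul_cancel₀ hr0.ne'
    have h2 : r⁻¹ • (rv zs - o) ∈ K := by
      have h3 := (gauge_le_one_iff_mem_closure hKb.conv hKn).mp h1.le
      rwa [hKb.comp.isClosed.closure_eq] at h3
    obtain ⟨x, hx, hxe⟩ := h2
    refine ⟨x, hx, ?_⟩
    have h3 : x - o = r⁻¹ • (rv zs - o) := by
      rw [← hxe]; simp [aff]
    have h4 : r • (x - o) = rv zs - o := by
      rw [h3, smul_smul, mul_inv_cancel₀ hr0.ne', one_smul]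
    unfold aff
    rw [smul_sub, smul_smul, mul_div_cancel₀ _ hr0.ne']
    rw [smul_sub] at h4
    have : rv zs = (r • x - r • o) + o := by rw [h4]; abel
    rw [this]
    module

/-- the preparation lemma -/
theorem prep {P0 : Set (Fin n → ℝ)} {B : ℝ} (hB0 : 0 ≤ B) (hP : Bd P0) (hh : Hol P0)
    (hW : Wd B P0) :
    ∃ P : Set (Fin n → ℝ), Bd P ∧ Hol P ∧ Wd B P ∧ (0 : Fin n → ℝ) ∈ P ∧
      ∃ y ∈ interior P, ∃ z : Fin n → ℤ, rv z = (2 : ℝ) • y := by
  obtain ⟨r, w, hr, hH, zs, hzs⟩ := touch hP hh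
  have hr0 : r ≠ 0 := by linarith
  set P1 := aff r w '' P0 with hP1
  have hB1 : Bd P1 := hP.aff r hr0 w
  have hW1 : Wd B P1 := hW.aff hB0 r hr w
  let Q : ℕ → Set (Fin n → ℝ) := fun j => aff ((2 : ℝ) ^ j) (rv zs) '' P1
  have hp : ∀ j : ℕ, ((2 : ℝ) ^ j) ≠ 0 := fun j => by positivity
  have hex : ∃ j : ℕ, ∃ z : Fin n → ℤ, rv z ∈ interior (Q j) := by
    obtain ⟨y0, hy0⟩ := hB1.int
    obtain ⟨ρ, hρ, hball⟩ := Metric.isOpen_iff.mp isOpen_interior y0 hy0
    obtain ⟨j, hj⟩ := pow_unbounded_of_one_lt (1 / ρ) (by norm_num : (1 : ℝ) < 2)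
    refine ⟨j, fun i => ⌊(2 : ℝ) ^ j * (y0 i - rv zs i)⌋, ?_⟩
    show _ ∈ interior (aff ((2 : ℝ) ^ j) (rv zs) '' P1)
    rw [interior_aff _ (hp j)]
    set z : Fin n → ℤ := fun i => ⌊(2 : ℝ) ^ j * (y0 i - rv zs i)⌋ with hz
    refine ⟨rv zs + ((2 : ℝ) ^ j)⁻¹ • rv z, hball ?_, ?_⟩
    · rw [Metric.mem_ball, dist_pi_lt_iff hρ]
      intro i
      rw [Real.dist_eq]
      simp only [Pi.add_apply, Pi.smul_apply, smul_eq_mul]
      have h2j : (0 : ℝ) < 2 ^ j := by positivity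
      have h1 := Int.floor_le ((2 : ℝ) ^ j * (y0 i - rv zs i))
      have h2 := Int.lt_floor_add_one ((2 : ℝ) ^ j * (y0 i - rv zs i))
      have h3 : rv zs i + ((2 : ℝ) ^ j)⁻¹ * rv z i - y0 i =
          ((2 : ℝ) ^ j)⁻¹ * (rv z i - (2 : ℝ) ^ j * (y0 i - rv zs i)) := by
        field_simp; ring
      rw [h3, abs_mul, abs_of_pos (inv_pos.mpr h2j), inv_mul_lt_iff₀ h2j]
      have h4 : |rv z i - (2 : ℝ) ^ j * (y0 i - rv zs i)| ≤ 1 := by
        rw [abs_le]
        simp only [rv, hz] at h1 h2 ⊢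
        constructor <;> linarith
      have h5 : 1 < 2 ^ j * ρ := by
        rw [div_lt_iff₀ hρ] at hj
        exact hj
      linarith
    · unfold aff
      rw [add_sub_cancel_left, smul_smul, mul_inv_cancel₀ (hp j), one_smul]
  classical
  let j := Nat.find hex
  have hj : ∃ z : Fin n → ℤ, rv z ∈ interior (Q j) := Nat.find_spec hex
  have hj0 : j ≠ 0 := by
    intro h0
    rw [h0] at hj
    obtain ⟨z, hz⟩ := hj
    have hz' : rv z ∈ interior (aff ((2 : ℝ) ^ 0) (rv zs) '' P1) := hz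
    rw [interior_aff _ (hp 0)] at hz'
    obtain ⟨x, hx, hxe⟩ := hz'
    apply hH (z + zs)
    have : rv (z + zs) = x := by
      unfold aff at hxe
      rw [pow_zero, one_smul] at hxe
      have e : rv (z + zs) = rv z + rv zs := by
        funext i; simp [rv]
      rw [e, ← hxe]; abel
    rw [this]; exact hx
  obtain ⟨i, hi⟩ : ∃ i, j = i + 1 := Nat.exists_eq_succ_of_ne_zero hj0
  refine ⟨Q i, hB1.aff _ (hp i) _, ?_, hW1.aff hB0 _ (one_le_pow₀ (by norm_num)) _,
    ⟨rv zs, hzs, by simp [aff]⟩, ?_⟩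
  · intro z hz
    exact Nat.find_min hex (show i < Nat.find hex by show i < j; omega) ⟨z, hz⟩
  · rw [hi] at hj
    obtain ⟨z, hz⟩ := hj
    have hz' : rv z ∈ interior (aff ((2 : ℝ) ^ (i + 1)) (rv zs) '' P1) := hz
    rw [interior_aff _ (hp (i + 1))] at hz'
    obtain ⟨x, hx, hxe⟩ := hz'
    refine ⟨aff ((2 : ℝ) ^ i) (rv zs) x, ?_, z, ?_⟩
    · show _ ∈ interior (aff ((2 : ℝ) ^ i) (rv zs) '' P1)
      rw [interior_aff _ (hp i)]
      exact ⟨x, hx, rfl⟩
    · rw [← hxe]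
      unfold aff
      rw [smul_smul, pow_succ]
      ring_nf

end H912Cov
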