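import Mathlib

/-! Two more dimensions: a body whose integer points lie on two hyperplanes, from a hollow body. -/

set_option autoImplicit false

open Set Topology

namespace H912Cov

variable {V : Type*} [NormedAddCommGroup V] [NormedSpace ℝ V]

/-- a supporting functional at a point outside of the interior -/
lemma support {P : Set V} (hconv : Convex ℝ P) (hne : (interior P).Nonempty) {x : V}
    (hx : x ∉ interior P) :
    ∃ f : V →L[ℝ] ℝ, (∀ a ∈ interior P, f a < f x) ∧ ∀ a ∈ P, f a ≤ f x := by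
  obtain ⟨f, hf⟩ := geometric_hahn_banach_open_point hconv.interior isOpen_interior hx
  refine ⟨f, hf, fun a ha => ?_⟩
  have h1 : a ∈ closure (interior P) := by
    rw [hconv.closure_interior_eq_closure_of_nonempty_interior hne]
    exact subset_closure ha
  have h2 : closure (interior P) ⊆ {y | f y ≤ f x} :=
    closure_minimal (fun y hy => (hf y hy).le) (isClosed_le f.continuous continuous_const)
  exact h2 h1

lemma not_int {D : Set V} (Φ : V →L[ℝ] ℝ) (c : ℝ) (hD : ∀ x ∈ D, Φ x ≤ c) (w : V) (hw : Φ w = c)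
    (v : V) (hv : 0 < Φ v) : w ∉ interior D := by
  intro h
  obtain ⟨ε, hε, hball⟩ := Metric.isOpen_iff.mp isOpen_interior w h
  have h1 : 0 < ‖v‖ + 1 := by positivity
  set t : ℝ := ε / (2 * (‖v‖ + 1)) with ht
  have ht0 : 0 < t := by positivity
  have h2 : w + t • v ∈ D := by
    apply interior_subset
    apply hball
    rw [Metric.mem_ball, dist_eq_norm, add_sub_cancel_left, norm_smul, Real.norm_eq_abs,
      abs_of_pos ht0]
    have h3 : t * (‖v‖ + 1) = ε / 2 := by rw [ht]; field_simp
    nlinarith [norm_nonneg v]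
  have h3 := hD _ h2
  rw [map_add, map_smul, hw, smul_eq_mul] at h3
  nlinarith

/-- the body over `D` with the two needles through `p` and `q` -/
def Lift (D : Set V) (p q : V) (a : ℝ) : Set (ℝ × ℝ × V) :=
  closure (convexHull ℝ (((fun x : V => ((0 : ℝ), (0 : ℝ), x)) '' D) ∪
    ((fun s : ℝ => (s, (0 : ℝ), p)) '' Icc (-a) a) ∪
    ((fun t : ℝ => ((0 : ℝ), t, q)) '' Icc (-a) a)))

lemma compact_cch {W : Type*} [NormedAddCommGroup W] [NormedSpace ℝ W] [ProperSpace W] {s : Set W}
    (hs : IsCompact s) : IsCompact (closure (convexHull ℝ s)) :=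
  Metric.isCompact_of_isClosed_isBounded isClosed_closure
    (isBounded_convexHull.mpr hs.isBounded).closure

variable {D : Set V} {p q : V} {a : ℝ}

lemma lift_base {x : V} (hx : x ∈ D) : ((0 : ℝ), (0 : ℝ), x) ∈ Lift D p q a :=
  subset_closure (subset_convexHull ℝ _ (Or.inl (Or.inl ⟨x, hx, rfl⟩)))

lemma lift_p {s : ℝ} (hs : s ∈ Icc (-a) a) : (s, (0 : ℝ), p) ∈ Lift D p q a :=
  subset_closure (subset_convexHull ℝ _ (Or.inl (Or.inr ⟨s, hs, rfl⟩)))

lemma lift_q {t : ℝ} (ht : t ∈ Icc (-a) a) : ((0 : ℝ), t, q) ∈ Lift D p q a :=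
  subset_closure (subset_convexHull ℝ _ (Or.inr ⟨t, ht, rfl⟩))

lemma lift_compact [ProperSpace V] (hD : IsCompact D) : IsCompact (Lift D p q a) := by
  apply compact_cch
  refine ((hD.image (by fun_prop)).union (isCompact_Icc.image (by fun_prop))).union
    (isCompact_Icc.image (by fun_prop))

lemma lift_convex : Convex ℝ (Lift D p q a) := (convex_convexHull ℝ _).closure

lemma lift_interior (ha : 0 < a) (hm : (1 / 2 : ℝ) • (p + q) ∈ interior D) :
    (interior (Lift D p q a)).Nonempty := by
  set m := (1 / 2 : ℝ) • (p + q) with hmdef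
  set O : Set (ℝ × ℝ × V) := {x | |x.1| < a / 4 ∧ |x.2.1| < a / 4 ∧
    (2 : ℝ) • x.2.2 - m ∈ interior D} with hO
  have hOopen : IsOpen O := by
    apply IsOpen.inter
    · exact isOpen_lt (f := fun x : ℝ × ℝ × V => |x.1|) (by fun_prop) continuous_const
    · apply IsOpen.inter
      · exact isOpen_lt (f := fun x : ℝ × ℝ × V => |x.2.1|) (by fun_prop) continuous_const
      · exact isOpen_interior.preimage (f := fun x : ℝ × ℝ × V => (2 : ℝ) • x.2.2 - m)
          (by fun_prop)
  have hsub : O ⊆ Lift D p q a := by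
    rintro ⟨s, t, x⟩ ⟨hs, ht, hx⟩
    simp only at hs ht hx
    have h1 : ((4 * s : ℝ), (0 : ℝ), p) ∈ Lift D p q a := by
      apply lift_p
      rw [abs_lt] at hs
      constructor <;> linarith
    have h2 : ((0 : ℝ), (4 * t : ℝ), q) ∈ Lift D p q a := by
      apply lift_q
      rw [abs_lt] at ht
      constructor <;> linarith
    have h3 : ((0 : ℝ), (0 : ℝ), (2 : ℝ) • x - m) ∈ Lift D p q a := lift_base (interior_subset hx)
    have h4 := lift_convex h1 h2 (by norm_num : (0 : ℝ) ≤ 1 / 2) (by norm_num : (0 : ℝ) ≤ 1 / 2)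
      (by norm_num)
    have h5 := lift_convex h4 h3 (by norm_num : (0 : ℝ) ≤ 1 / 2) (by norm_num : (0 : ℝ) ≤ 1 / 2)
      (by norm_num)
    convert h5 using 1
    refine Prod.ext ?_ (Prod.ext ?_ ?_)
    · simp; ring
    · simp; ring
    · simp only [Prod.smul_mk, Prod.mk_add_mk]
      rw [hmdef]
      module
  refine ⟨((0 : ℝ), (0 : ℝ), m), interior_mono hsub ?_⟩
  rw [hOopen.interior_eq]
  refine ⟨by simp; positivity, by simp; positivity, ?_⟩
  have : (2 : ℝ) • m - m = m := by module
  show (2 : ℝ) • m - m ∈ interior D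
  rw [this]
  exact hm

/-- the integer points of the lifted body lie on two hyperplanes if `D` is hollow -/
lemma lift_key (ha : 0 < a) (hconv : Convex ℝ D) (hp : p ∈ D) (hq : q ∈ D)
    (hm : (1 / 2 : ℝ) • (p + q) ∈ interior D) {s t : ℝ} {x : V} (h : (s, t, x) ∈ Lift D p q a)
    (hs : s ≠ 0) (ht : t ≠ 0) : x ∈ interior D := by
  by_contra hx
  obtain ⟨f, hf1, hf2⟩ := support hconv ⟨_, hm⟩ hx
  have hfp : f p ≤ f x := hf2 p hp
  have hfq : f q ≤ f x := hf2 q hq
  have hfm : f p + f q < 2 * f x := by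
    have := hf1 _ hm
    rw [map_smul, map_add, smul_eq_mul] at this
    linarith
  set A := f x - f p with hA
  set B := f x - f q with hB
  have hA0 : 0 ≤ A := by rw [hA]; linarith
  have hB0 : 0 ≤ B := by rw [hB]; linarith
  have hsub : Lift D p q a ⊆ {y | f y.2.2 + |y.1| / a * A + |y.2.1| / a * B ≤ f x} := by
    refine closure_minimal ?_ (isClosed_le (by fun_prop) continuous_const)
    apply convexHull_min
    · rintro y ((⟨v, hv, rfl⟩ | ⟨s', hs', rfl⟩) | ⟨t', ht', rfl⟩)
      · simpa using hf2 v hv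
      · show f p + |s'| / a * A + |(0 : ℝ)| / a * B ≤ f x
        have h1 : |s'| / a ≤ 1 := by
          rw [div_le_one ha]; exact abs_le.mpr hs'
        rw [abs_zero, zero_div, zero_mul, add_zero]
        nlinarith
      · show f q + |(0 : ℝ)| / a * A + |t'| / a * B ≤ f x
        have h1 : |t'| / a ≤ 1 := by
          rw [div_le_one ha]; exact abs_le.mpr ht'
        rw [abs_zero, zero_div, zero_mul, add_zero]
        nlinarith
    · rintro ⟨y1, y2, y3⟩ hy ⟨z1, z2, z3⟩ hz α β hα hβ hαβ
      have hy' : f y3 + |y1| / a * A + |y2| / a * B ≤ f x := hy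
      have hz' : f z3 + |z1| / a * A + |z2| / a * B ≤ f x := hz
      show f (α • y3 + β • z3) + |α * y1 + β * z1| / a * A + |α * y2 + β * z2| / a * B ≤ f x
      have e1 : |α * y1 + β * z1| / a * A ≤ α * (|y1| / a * A) + β * (|z1| / a * A) := by
        have h1 : |α * y1 + β * z1| ≤ α * |y1| + β * |z1| := by
          refine (abs_add_le _ _).trans ?_
          rw [abs_mul, abs_mul, abs_of_nonneg hα, abs_of_nonneg hβ]
        have h2 : |α * y1 + β * z1| / a * A ≤ (α * |y1| + β * |z1|) / a * A := by gcongr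
        refine h2.trans (le_of_eq ?_)
        ring
      have e2 : |α * y2 + β * z2| / a * B ≤ α * (|y2| / a * B) + β * (|z2| / a * B) := by
        have h1 : |α * y2 + β * z2| ≤ α * |y2| + β * |z2| := by
          refine (abs_add_le _ _).trans ?_
          rw [abs_mul, abs_mul, abs_of_nonneg hα, abs_of_nonneg hβ]
        have h2 : |α * y2 + β * z2| / a * B ≤ (α * |y2| + β * |z2|) / a * B := by gcongr
        refine h2.trans (le_of_eq ?_)
        ring
      rw [map_add, map_smul, map_smul, smul_eq_mul, smul_eq_mul]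
      have h3 : f x = α * f x + β * f x := by rw [← add_mul, hαβ, one_mul]
      have h4 := mul_le_mul_of_nonneg_left hy' hα
      have h5 := mul_le_mul_of_nonneg_left hz' hβ
      linarith
  have h1 : f x + |s| / a * A + |t| / a * B ≤ f x := hsub h
  have h2 : 0 < |s| / a := div_pos (abs_pos.mpr hs) ha
  have h3 : 0 < |t| / a := div_pos (abs_pos.mpr ht) ha
  have h4 : 0 ≤ |s| / a * A := mul_nonneg h2.le hA0
  have h5 : 0 ≤ |t| / a * B := mul_nonneg h3.le hB0
  have h6 : |s| / a * A = 0 := by linarith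
  have h7 : |t| / a * B = 0 := by linarith
  have h8 : A = 0 := by
    rcases mul_eq_zero.mp h6 with h | h
    · exact absurd h h2.ne'
    · exact h
  have h9 : B = 0 := by
    rcases mul_eq_zero.mp h7 with h | h
    · exact absurd h h3.ne'
    · exact h
  rw [hA] at h8
  rw [hB] at h9
  linarith

end H912Cov
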