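import Pool.Agent.H912R3.Cov.L0
import Pool.Agent.H912R3.Cov.L1

/-! The direct sum of `card κ` copies of `P`, each scaled by `card κ`, is hollow. -/

set_option autoImplicit false

open Set Topology

namespace H912Cov

variable {n : ℕ} {κ : Type} [Fintype κ] [DecidableEq κ]

/-- the scaled direct sum -/
def DS (κ : Type) [Fintype κ] [DecidableEq κ] (P : Set (Fin n → ℝ)) : Set (κ → Fin n → ℝ) :=
  closure (convexHull ℝ (⋃ j : κ, (fun x => Pi.single j ((Fintype.card κ : ℝ) • x)) '' P))

lemma DS_single {P : Set (Fin n → ℝ)} {x : Fin n → ℝ} (hx : x ∈ P) (j : κ) :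
    Pi.single j ((Fintype.card κ : ℝ) • x) ∈ DS κ P :=
  subset_closure (subset_convexHull ℝ _ (mem_iUnion.mpr ⟨j, x, hx, rfl⟩))

lemma DS_convex (P : Set (Fin n → ℝ)) : Convex ℝ (DS κ P) := (convex_convexHull ℝ _).closure

lemma DS_compact {P : Set (Fin n → ℝ)} (hP : IsCompact P) : IsCompact (DS κ P) := by
  apply compact_cch
  apply isCompact_iUnion
  intro j
  apply hP.image
  apply (continuous_single j).comp
  exact continuous_const_smul _

/-- averages of points of the copies -/
lemma DS_avg {P : Set (Fin n → ℝ)} {ι' : Type*} (s : Finset ι') (hs : s.Nonempty) (φ : ι' → κ)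
    (x : ι' → Fin n → ℝ) (hx : ∀ i ∈ s, x i ∈ P) :
    ∑ i ∈ s, (1 / (s.card : ℝ)) • (Pi.single (φ i) ((Fintype.card κ : ℝ) • x i) : κ → Fin n → ℝ)
      ∈ DS κ P := by
  apply (DS_convex P).sum_mem
  · intro i _; positivity
  · rw [Finset.sum_const, nsmul_eq_mul]
    have : (s.card : ℝ) ≠ 0 := by
      have := hs.card_pos
      positivity
    field_simp
  · intro i hi
    exact DS_single (hx i hi) (φ i)

lemma DS_prod [Nonempty κ] {P : Set (Fin n → ℝ)} : Set.pi univ (fun _ : κ => P) ⊆ DS κ P := by
  intro w hw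
  have h1 := DS_avg (P := P) (κ := κ) Finset.univ Finset.univ_nonempty id w
    (fun i _ => hw i (mem_univ i))
  have h2 : (∑ i, (1 / ((Finset.univ : Finset κ).card : ℝ)) •
      (Pi.single (id i) ((Fintype.card κ : ℝ) • w i) : κ → Fin n → ℝ)) = w := by
    have hc : (Fintype.card κ : ℝ) ≠ 0 := by
      have := Fintype.card_pos (α := κ)
      positivity
    funext j
    rw [Finset.sum_apply]
    rw [Finset.sum_eq_single j]
    · simp only [id, Pi.smul_apply, Pi.single_eq_same, Finset.card_univ]
      rw [smul_smul, one_div, inv_mul_cancel₀ hc, one_smul]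
    · intro i _ hij
      simp only [id, Pi.smul_apply]
      rw [Pi.single_eq_of_ne hij.symm, smul_zero]
    · intro h; exact absurd (Finset.mem_univ j) h
  rw [h2] at h1
  exact h1

lemma DS_interior [Nonempty κ] {P : Set (Fin n → ℝ)} {y : Fin n → ℝ} (hy : y ∈ interior P) :
    (fun _ : κ => y) ∈ interior (DS κ P) := by
  have h1 : (fun _ : κ => y) ∈ interior (Set.pi univ (fun _ : κ => P)) := by
    rw [interior_pi_set (finite_univ)]
    intro j _
    exact hy
  exact interior_mono DS_prod h1

/-- the direct sum is hollow -/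
theorem DS_hollow [Nonempty κ] {P : Set (Fin n → ℝ)} (hP : Bd P) (hh : Hol P)
    (h0 : (0 : Fin n → ℝ) ∈ P) (w : κ → Fin n → ℝ) (hw : ∀ j, ∃ z : Fin n → ℤ, w j = rv z) :
    w ∉ interior (DS κ P) := by
  have hwj : ∀ j, w j ∉ interior P := by
    intro j h
    obtain ⟨z, hz⟩ := hw j
    rw [hz] at h
    exact hh z h
  choose f hf1 hf2 using fun j => support hP.conv hP.int (hwj j)
  obtain ⟨a, ha⟩ := hP.int
  have hh0 : ∀ j, 0 ≤ f j (w j) := by
    intro j
    have := hf2 j 0 h0
    rwa [map_zero] at this
  have hk0 : (0 : ℝ) ≤ (Fintype.card κ : ℝ) := by positivity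
  by_cases hex : ∃ i, f i (w i) = 0
  · obtain ⟨i, hi⟩ := hex
    let Ψ : (κ → Fin n → ℝ) →L[ℝ] ℝ := (f i).comp (ContinuousLinearMap.proj i)
    have hwΨ : Ψ w = 0 := hi
    apply not_int Ψ 0 _ w hwΨ (Pi.single i (w i - a))
    · show 0 < f i ((Pi.single i (w i - a) : κ → Fin n → ℝ) i)
      rw [Pi.single_eq_same, map_sub]
      linarith [hf1 i a ha]
    · have hsub : DS κ P ⊆ {v | Ψ v ≤ 0} := by
        refine closure_minimal (convexHull_min ?_ ?_)
          (isClosed_le (ContinuousLinearMap.continuous _) continuous_const)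
        · intro v hv
          obtain ⟨j, x, hx, rfl⟩ := mem_iUnion.mp hv
          show f i ((Pi.single j ((Fintype.card κ : ℝ) • x) : κ → Fin n → ℝ) i) ≤ 0
          by_cases hij : i = j
          · subst hij
            rw [Pi.single_eq_same, map_smul, smul_eq_mul]
            have := hf2 i x hx
            rw [hi] at this
            exact mul_nonpos_of_nonneg_of_nonpos hk0 this
          · rw [Pi.single_eq_of_ne hij, map_zero]
        · exact convex_halfSpace_le Ψ.toLinearMap.isLinear 0
      intro v hv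
      exact hsub hv
  · push Not at hex
    have hpos : ∀ j, 0 < f j (w j) := fun j => lt_of_le_of_ne (hh0 j) (hex j).symm
    let Φ : (κ → Fin n → ℝ) →L[ℝ] ℝ :=
      ∑ j, (1 / f j (w j)) • (f j).comp (ContinuousLinearMap.proj j)
    have hΦ : ∀ v, Φ v = ∑ j, (1 / f j (w j)) * f j (v j) := by
      intro v
      simp only [Φ, sum_apply, smul_apply,
        ContinuousLinearMap.comp_apply, ContinuousLinearMap.proj_apply, smul_eq_mul]
    have hΦs : ∀ (i : κ) (x : Fin n → ℝ), Φ (Pi.single i x) = (1 / f i (w i)) * f i x := by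
      intro i x
      rw [hΦ, Finset.sum_eq_single i]
      · rw [Pi.single_eq_same]
      · intro j _ hj
        rw [Pi.single_eq_of_ne hj, map_zero, mul_zero]
      · intro h; exact absurd (Finset.mem_univ i) h
    obtain ⟨i⟩ := ‹Nonempty κ›
    apply not_int Φ (Fintype.card κ : ℝ) _ w _ (Pi.single i (w i - a))
    · rw [hΦs, map_sub]
      have h1 := hf1 i a ha
      have h2 := hpos i
      have : 0 < f i (w i) - f i a := by linarith
      positivity
    · have hsub : DS κ P ⊆ {v | Φ v ≤ (Fintype.card κ : ℝ)} := by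
        refine closure_minimal (convexHull_min ?_ ?_)
          (isClosed_le (ContinuousLinearMap.continuous _) continuous_const)
        · intro v hv
          obtain ⟨j, x, hx, rfl⟩ := mem_iUnion.mp hv
          show Φ (Pi.single j ((Fintype.card κ : ℝ) • x)) ≤ _
          rw [hΦs, map_smul, smul_eq_mul]
          have h1 := hf2 j x hx
          have h2 := hpos j
          have h3 : (1 / f j (w j)) * f j x ≤ 1 := by
            rw [one_div, inv_mul_le_iff₀ h2]; linarith
          calc (1 / f j (w j)) * ((Fintype.card κ : ℝ) * f j x)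
              = (Fintype.card κ : ℝ) * ((1 / f j (w j)) * f j x) := by ring
            _ ≤ (Fintype.card κ : ℝ) * 1 := mul_le_mul_of_nonneg_left h3 hk0
            _ = _ := mul_one _
        · exact convex_halfSpace_le Φ.toLinearMap.isLinear _
      intro v hv
      exact hsub hv
    · rw [hΦ]
      have : ∀ j, (1 / f j (w j)) * f j (w j) = 1 := fun j => by
        rw [one_div, inv_mul_cancel₀ (hex j)]
      rw [Finset.sum_congr rfl fun j _ => this j]
      simp

end H912Cov
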