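import Mathlib

/-! Counting the values of a linear functional on the integer points of `k • P`. -/

set_option autoImplicit false

open Set

namespace H912Cov

/-- the real vector of an integer vector -/
def rv {n : ℕ} (z : Fin n → ℤ) : Fin n → ℝ := fun i => (z i : ℝ)

/-- the functional with integer coefficients `Y` -/
noncomputable def lf {n : ℕ} (Y : Fin n → ℤ) (x : Fin n → ℝ) : ℝ := ∑ i, (Y i : ℝ) * x i

lemma lf_add {n : ℕ} (Y : Fin n → ℤ) (x y : Fin n → ℝ) : lf Y (x + y) = lf Y x + lf Y y := by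
  simp only [lf, Pi.add_apply, mul_add, Finset.sum_add_distrib]

lemma lf_smul {n : ℕ} (Y : Fin n → ℤ) (c : ℝ) (x : Fin n → ℝ) : lf Y (c • x) = c * lf Y x := by
  simp only [lf, Pi.smul_apply, smul_eq_mul, Finset.mul_sum]
  exact Finset.sum_congr rfl fun i _ => by ring

lemma lf_rv {n : ℕ} (Y z : Fin n → ℤ) : lf Y (rv z) = ((∑ i, Y i * z i : ℤ) : ℝ) := by
  simp only [lf, rv]; push_cast; rfl

lemma lf_cont {n : ℕ} (Y : Fin n → ℤ) : Continuous (lf Y) := by
  unfold lf; fun_prop

lemma lf_bound {n : ℕ} (Y : Fin n → ℤ) (x : Fin n → ℝ) (c : ℝ) (hx : ∀ i, |x i| ≤ c) :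
    |lf Y x| ≤ (∑ i, |(Y i : ℝ)|) * c := by
  unfold lf
  refine (Finset.abs_sum_le_sum_abs _ _).trans ?_
  rw [Finset.sum_mul]
  exact Finset.sum_le_sum fun i _ => by
    rw [abs_mul]; exact mul_le_mul_of_nonneg_left (hx i) (abs_nonneg _)

/-- primitive functionals -/
theorem count_prim {n : ℕ} (P : Set (Fin n → ℝ)) (hc : IsCompact P) (hconv : Convex ℝ P)
    (o : Fin n → ℝ) (ρ : ℝ) (hρ : 0 < ρ) (hball : ∀ x : Fin n → ℝ, (∀ i, |x i - o i| ≤ ρ) → x ∈ P)
    (B C : ℝ) (Y e : Fin n → ℤ) (hYe : ∑ i, Y i * e i = 1)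
    (hB : ∀ a : ℝ, ∃ x ∈ P, ¬ (a ≤ lf Y x ∧ lf Y x ≤ a + B)) :
    ∃ k0 : ℕ, ∀ k : ℕ, k0 ≤ k → ∀ S : Finset ℤ,
      (∀ z : Fin n → ℤ, (∃ x ∈ P, rv z = (k : ℝ) • x) → ∑ i, Y i * z i ∈ S) →
      B * k + C < S.card := by
  have hoP : o ∈ P := hball o fun i => by simp [hρ.le]
  obtain ⟨xl, hxl, hmin⟩ := hc.exists_isMinOn ⟨o, hoP⟩ (lf_cont Y).continuousOn
  obtain ⟨xh, hxh, hmax⟩ := hc.exists_isMaxOn ⟨o, hoP⟩ (lf_cont Y).continuousOn
  set lo := lf Y xl with hlo
  set hi := lf Y xh with hhi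
  have hwid : lo + B < hi := by
    obtain ⟨x, hx, hnx⟩ := hB lo
    have h1 : lo ≤ lf Y x := hmin hx
    have h2 : lf Y x ≤ hi := hmax hx
    have h3 : ¬ lf Y x ≤ lo + B := fun h => hnx ⟨h1, h⟩
    push Not at h3
    linarith
  have hlohi : lo ≤ hi := hmin hxh
  set CY : ℝ := 1 + (∑ i, |(Y i : ℝ)|) * (∑ i, |(e i : ℝ)|) with hCY
  have hCY0 : 0 < CY := by positivity
  set M : ℕ := ⌈CY / ρ⌉₊ + 1 with hM
  have hMρ : CY ≤ M * ρ := by
    have h1 : CY / ρ ≤ ⌈CY / ρ⌉₊ := Nat.le_ceil _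
    have h2 : CY / ρ ≤ M := by rw [hM]; push_cast; linarith
    rwa [div_le_iff₀ hρ] at h2
  have hM0 : (0 : ℝ) < M := by rw [hM]; positivity
  set δ : ℝ := hi - lo - B with hδ
  have hδ0 : 0 < δ := by rw [hδ]; linarith
  obtain ⟨k1, hk1⟩ := exists_nat_gt ((M * (hi - lo) + 1 + C) / δ)
  refine ⟨max k1 (M + 1), fun k hk S hS => ?_⟩
  have hkM : (M : ℝ) + 1 ≤ k := by exact_mod_cast (le_max_right _ _).trans hk
  have hkk : (k1 : ℝ) ≤ k := by exact_mod_cast (le_max_left _ _).trans hk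
  have hbig : M * (hi - lo) + 1 + C < k * δ := by
    have := (div_lt_iff₀ hδ0).mp (hk1.trans_le hkk)
    linarith
  set al : ℝ := (k - M) * lo + M * lf Y o with hal
  set be : ℝ := (k - M) * hi + M * lf Y o with hbe
  have hsub : Finset.Icc ⌈al⌉ ⌊be⌋ ⊆ S := by
    intro v hv
    rw [Finset.mem_Icc] at hv
    have hv1 : al ≤ v := Int.ceil_le.mp hv.1
    have hv2 : (v : ℝ) ≤ be := Int.le_floor.mp hv.2
    -- a real point of `(k - M) P + M o` on the level `v`
    obtain ⟨x, hx, hxv⟩ : ∃ x ∈ P, (k - M) * lf Y x + M * lf Y o = v := by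
      have hkM' : (0 : ℝ) < k - M := by linarith
      rcases hlohi.eq_or_lt with h | h
      · refine ⟨xl, hxl, ?_⟩
        have : al = be := by rw [hal, hbe, h]
        linarith
      · have hd : 0 < (k - M) * (hi - lo) := mul_pos hkM' (by linarith)
        set τ : ℝ := (v - al) / ((k - M) * (hi - lo)) with hτ
        have hτ0 : 0 ≤ τ := div_nonneg (by linarith) hd.le
        have hτ1 : τ ≤ 1 := by
          rw [hτ, div_le_one hd]
          have : be - al = (k - M) * (hi - lo) := by rw [hal, hbe]; ring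
          linarith
        refine ⟨(1 - τ) • xl + τ • xh, hconv hxl hxh (by linarith) hτ0 (by ring), ?_⟩
        rw [lf_add, lf_smul, lf_smul, ← hlo, ← hhi]
        have h1 : τ * ((k - M) * (hi - lo)) = v - al := div_mul_cancel₀ _ hd.ne'
        have : (k - M) * ((1 - τ) * lo + τ * hi) + M * lf Y o =
          al + τ * ((k - M) * (hi - lo)) := by rw [hal]; ring
        rw [this, h1]; ring
    set X : Fin n → ℝ := (k - M : ℝ) • x + (M : ℝ) • o with hX
    have hYX : lf Y X = v := by rw [hX, lf_add, lf_smul, lf_smul]; exact hxv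
    set u : Fin n → ℤ := fun i => ⌊X i⌋ with hu
    set q : ℤ := v - ∑ i, Y i * u i with hq
    have hqe : (q : ℝ) = lf Y (fun i => X i - u i) := by
      rw [hq]
      push_cast
      rw [← hYX]
      simp only [lf, mul_sub, Finset.sum_sub_distrib]
    have hqb : |(q : ℝ)| ≤ (∑ i, |(Y i : ℝ)|) * 1 := by
      rw [hqe]
      apply lf_bound
      intro i
      rw [abs_le]
      have h1 := Int.floor_le (X i)
      have h2 := Int.lt_floor_add_one (X i)
      simp only [hu]
      constructor <;> linarith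
    set z : Fin n → ℤ := fun i => u i + q * e i with hz
    have hYz : ∑ i, Y i * z i = v := by
      have : ∑ i, Y i * z i = ∑ i, Y i * u i + q * ∑ i, Y i * e i := by
        rw [Finset.mul_sum, ← Finset.sum_add_distrib]
        exact Finset.sum_congr rfl fun i _ => by rw [hz]; ring
      rw [this, hYe, hq]; ring
    have hzX : ∀ i, |rv z i - X i| ≤ CY := by
      intro i
      have h1 : rv z i - X i = -(X i - u i) + q * e i := by
        simp only [rv, hz]; push_cast; ring
      rw [h1]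
      refine (abs_add_le _ _).trans ?_
      rw [hCY]
      apply add_le_add
      · rw [abs_neg, abs_le]
        have h1 := Int.floor_le (X i)
        have h2 := Int.lt_floor_add_one (X i)
        simp only [hu]
        constructor <;> linarith
      · rw [abs_mul]
        apply mul_le_mul _ _ (abs_nonneg _) (by positivity)
        · linarith
        · exact Finset.single_le_sum (f := fun i => |(e i : ℝ)|) (fun i _ => abs_nonneg _)
            (Finset.mem_univ i)
    have hw : (o + (1 / (M : ℝ)) • (rv z - X)) ∈ P := by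
      apply hball
      intro i
      simp only [Pi.add_apply, Pi.smul_apply, Pi.sub_apply, smul_eq_mul, add_sub_cancel_left]
      rw [abs_mul, abs_of_pos (by positivity : (0 : ℝ) < 1 / (M : ℝ)), one_div,
        inv_mul_le_iff₀ hM0]
      exact (hzX i).trans hMρ
    rw [← hYz]
    apply hS
    have hk0 : (0 : ℝ) < k := by linarith
    refine ⟨((k - M : ℝ) / k) • x + ((M : ℝ) / k) • (o + (1 / (M : ℝ)) • (rv z - X)),
      hconv hx hw (div_nonneg (by linarith) hk0.le) (by positivity) (by field_simp; ring), ?_⟩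
    rw [smul_add, smul_smul, smul_smul, mul_div_cancel₀ _ hk0.ne', mul_div_cancel₀ _ hk0.ne',
      smul_add, smul_smul, mul_one_div_cancel hM0.ne', one_smul, ← add_assoc, ← hX]
    abel
  have hcard : be - al - 1 ≤ S.card := by
    have h1 : ((Finset.Icc ⌈al⌉ ⌊be⌋).card : ℝ) ≤ S.card := by
      exact_mod_cast Finset.card_le_card hsub
    refine le_trans ?_ h1
    rw [Int.card_Icc]
    have h2 : ((⌊be⌋ + 1 - ⌈al⌉ : ℤ) : ℝ) ≤ ((⌊be⌋ + 1 - ⌈al⌉).toNat : ℝ) := by
      have := Int.self_le_toNat (⌊be⌋ + 1 - ⌈al⌉)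
      exact_mod_cast this
    refine le_trans ?_ h2
    push_cast
    have h3 := Int.lt_floor_add_one be
    have h4 := Int.ceil_lt_add_one al
    linarith
  have h5 : be - al = (k - M) * (hi - lo) := by rw [hal, hbe]; ring
  rw [h5] at hcard
  have h6 : B = hi - lo - δ := by rw [hδ]; ring
  have h7 : B * k + C < (k - M) * (hi - lo) - 1 := by
    rw [h6]; nlinarith
  linarith

end H912Cov
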