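import Pool.Agent.H912R3.Cov.Deg

/-!
If the integer points of a convex body are covered by `N` hyperplanes, then its lattice width is at
most `(N+1)` times the flatness constant.
-/

set_option autoImplicit false

open Set

namespace H912Cov

/-- the embedding of `ℤ^d` -/
noncomputable def io (d : ℕ) : (Fin d → ℤ) →+ EuclideanSpace ℝ (Fin d) where
  toFun z := WithLp.toLp 2 (fun i => (z i : ℝ))
  map_zero' := by ext i; simp
  map_add' x y := by ext i; simp

@[simp] lemma io_apply {d : ℕ} (z : Fin d → ℤ) (i : Fin d) : io d z i = (z i : ℝ) := rfl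

lemma inner_io {d : ℕ} (z : Fin d → ℤ) (u : EuclideanSpace ℝ (Fin d)) :
    inner ℝ (io d z) u = ∑ i, (z i : ℝ) * u i := by
  rw [PiLp.inner_apply]
  apply Finset.sum_congr rfl
  intro i _
  simp [mul_comm]

/-- finitely many hyperplanes do not cover the integer points -/
lemma not_cover {d N : ℕ} (u : Fin N → EuclideanSpace ℝ (Fin d)) (c : Fin N → ℝ)
    (hu : ∀ i, u i ≠ 0) : ∃ z : Fin d → ℤ, ∀ i, inner ℝ (io d z) (u i) ≠ c i := by
  classical
  let p : Fin N → Polynomial ℝ := fun i =>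
    (∑ j : Fin d, Polynomial.C (u i j) * Polynomial.X ^ ((j : ℕ) + 1)) - Polynomial.C (c i)
  have hp : ∀ i, p i ≠ 0 := by
    intro i h0
    apply hu i
    ext j
    have h1 : (p i).coeff ((j : ℕ) + 1) = 0 := by rw [h0]; simp
    simp only [p, Polynomial.coeff_sub, Polynomial.finsetSum_coeff, Polynomial.coeff_C_mul,
      Polynomial.coeff_X_pow, Polynomial.coeff_C, Nat.succ_ne_zero, if_false, sub_zero] at h1
    rw [Finset.sum_eq_single j] at h1
    · simpa using h1
    · intro k _ hk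
      have : (j : ℕ) + 1 ≠ (k : ℕ) + 1 := by
        intro h
        apply hk
        ext
        omega
      rw [if_neg this, mul_zero]
    · intro h
      exact absurd (Finset.mem_univ j) h
  have hprod : (∏ i, p i) ≠ 0 := Finset.prod_ne_zero_iff.mpr fun i _ => hp i
  obtain ⟨t, ht⟩ : ∃ t : ℕ, ¬ (∏ i, p i).IsRoot (t : ℝ) := by
    by_contra hcon
    push Not at hcon
    apply hprod
    apply Polynomial.eq_zero_of_infinite_isRoot
    apply (Set.infinite_range_of_injective (Nat.cast_injective (R := ℝ))).mono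
    rintro _ ⟨t, rfl⟩
    exact hcon t
  refine ⟨fun j => (t : ℤ) ^ ((j : ℕ) + 1), fun i hi => ht ?_⟩
  rw [Polynomial.IsRoot.def, Polynomial.eval_prod]
  apply Finset.prod_eq_zero (Finset.mem_univ i)
  rw [inner_io] at hi
  simp only [p, Polynomial.eval_sub, Polynomial.eval_finsetSum, Polynomial.eval_mul,
    Polynomial.eval_C, Polynomial.eval_pow, Polynomial.eval_X]
  rw [← hi, sub_eq_zero]
  apply Finset.sum_congr rfl
  intro j _
  push_cast
  ring

/-- the main dichotomy -/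
theorem width_of_vanish {d N : ℕ} (F : ℝ)
    (hF : ∀ K : Set (EuclideanSpace ℝ (Fin d)), IsCompact K → Convex ℝ K → (interior K).Nonempty →
      (∀ z : Fin d → ℤ, io d z ∉ interior K) →
      ∃ y : Fin d → ℤ, y ≠ 0 ∧ ∃ a : ℝ, ∀ x ∈ K, a ≤ ∑ i, (y i : ℝ) * x i ∧
        ∑ i, (y i : ℝ) * x i ≤ a + F)
    (K : Set (EuclideanSpace ℝ (Fin d))) (hc : IsCompact K) (hconv : Convex ℝ K)
    (hne : (interior K).Nonempty) (g : (Fin d → ℤ) → ℝ) (hg : PD (N + 1) g) (hg0 : g ≠ 0)
    (hcov : ∀ z : Fin d → ℤ, io d z ∈ K → g z = 0) :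
    ∃ y : Fin d → ℤ, y ≠ 0 ∧ ∃ a : ℝ, ∀ x ∈ K, a ≤ ∑ i, (y i : ℝ) * x i ∧
        ∑ i, (y i : ℝ) * x i ≤ a + (N + 1) * F := by
  have hN : (0 : ℝ) < (N : ℝ) + 1 := by positivity
  set r : ℝ := 1 / ((N : ℝ) + 1) with hr
  have hr0 : 0 < r := by positivity
  have hrN : ((N : ℝ) + 1) * r = 1 := mul_one_div_cancel hN.ne'
  set K' : Set (EuclideanSpace ℝ (Fin d)) := (fun x => r • x) '' K with hK'
  have hK'conv : Convex ℝ K' := by
    have := hconv.smul r
    exact this
  have hK'comp : IsCompact K' := hc.image (by fun_prop)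
  have hK'int : (interior K').Nonempty := by
    have e : K' = (Homeomorph.smulOfNeZero r hr0.ne') '' K := rfl
    rw [e, ← Homeomorph.image_interior]
    exact hne.image _
  by_cases hall : ∀ s : EuclideanSpace ℝ (Fin d), ∃ z : Fin d → ℤ,
      io d z ∈ interior ((fun x => x + s) '' K')
  · exfalso
    apply hg0
    apply super (io d) K' hK'conv hall N _ 0 hg
    rintro w ⟨x, ⟨x', hx', rfl⟩, hw⟩
    have hw' : io d w = x' := by
      rw [hw]
      show ((N : ℝ) + 1) • (r • x') + 0 = x'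
      rw [smul_smul, hrN, one_smul, add_zero]
    exact hcov w (by rw [hw']; exact hx')
  · push Not at hall
    obtain ⟨s, hs⟩ := hall
    have hint : ((fun x => x + s) '' K') = (Homeomorph.addRight s) '' K' := rfl
    obtain ⟨y, hy, a, ha⟩ := hF ((fun x => x + s) '' K') (hK'comp.image (by fun_prop))
      (by
        have := hK'conv.translate s
        have e : (fun x => x + s) '' K' = (fun x => s + x) '' K' := by
          apply Set.image_congr
          intro x _
          exact add_comm x s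
        rw [e]
        exact this)
      (by
        rw [hint, ← Homeomorph.image_interior]
        exact hK'int.image _) hs
    refine ⟨y, hy, (N + 1) * (a - ∑ i, (y i : ℝ) * s i), fun x hx => ?_⟩
    have h1 := ha (r • x + s) ⟨r • x, ⟨x, hx, rfl⟩, rfl⟩
    have h2 : ∑ i, (y i : ℝ) * (r • x + s) i = r * ∑ i, (y i : ℝ) * x i + ∑ i, (y i : ℝ) * s i := by
      rw [Finset.mul_sum, ← Finset.sum_add_distrib]
      apply Finset.sum_congr rfl
      intro i _
      simp only [PiLp.add_apply, PiLp.smul_apply, smul_eq_mul]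
      ring
    rw [h2] at h1
    have h3 : ∑ i, (y i : ℝ) * x i = ((N : ℝ) + 1) * (r * ∑ i, (y i : ℝ) * x i) := by
      rw [← mul_assoc, hrN, one_mul]
    constructor
    · rw [h3]
      apply mul_le_mul_of_nonneg_left _ hN.le
      linarith [h1.1]
    · rw [h3]
      have := mul_le_mul_of_nonneg_left (show r * ∑ i, (y i : ℝ) * x i ≤
        (a - ∑ i, (y i : ℝ) * s i) + F by linarith [h1.2]) hN.le
      linarith

/-- the hyperplane case -/
theorem width_of_cover {d N : ℕ} (F : ℝ)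
    (hF : ∀ K : Set (EuclideanSpace ℝ (Fin d)), IsCompact K → Convex ℝ K → (interior K).Nonempty →
      (∀ z : Fin d → ℤ, io d z ∉ interior K) →
      ∃ y : Fin d → ℤ, y ≠ 0 ∧ ∃ a : ℝ, ∀ x ∈ K, a ≤ ∑ i, (y i : ℝ) * x i ∧
        ∑ i, (y i : ℝ) * x i ≤ a + F)
    (K : Set (EuclideanSpace ℝ (Fin d))) (hc : IsCompact K) (hconv : Convex ℝ K)
    (hne : (interior K).Nonempty) (u : Fin N → EuclideanSpace ℝ (Fin d)) (c : Fin N → ℝ)
    (hu : ∀ i, u i ≠ 0) (hcov : ∀ z : Fin d → ℤ, io d z ∈ K → ∃ i, inner ℝ (io d z) (u i) = c i) :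
    ∃ y : Fin d → ℤ, y ≠ 0 ∧ ∃ a : ℝ, ∀ x ∈ K, a ≤ ∑ i, (y i : ℝ) * x i ∧
        ∑ i, (y i : ℝ) * x i ≤ a + (N + 1) * F := by
  have h1 : PD (N + 1) (fun z : Fin d → ℤ => ∏ i, (inner ℝ (io d z) (u i) - c i)) := by
    apply PD_prod (fun i z => inner ℝ (io d z) (u i) - c i) (fun i z => inner ℝ (io d z) (u i))
    intro i x v
    rw [map_add, inner_add_left]
    ring
  refine width_of_vanish F hF K hc hconv hne _ h1 ?_ ?_
  · intro h0
    obtain ⟨z, hz⟩ := not_cover u c hu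
    have h3 := congrFun h0 z
    simp only [Pi.zero_apply] at h3
    rw [Finset.prod_eq_zero_iff] at h3
    obtain ⟨i, _, hi⟩ := h3
    exact hz i (sub_eq_zero.mp hi)
  · intro w hw
    obtain ⟨i, hi⟩ := hcov w hw
    apply Finset.prod_eq_zero (Finset.mem_univ i)
    rw [hi, sub_self]

/-- integer points in a slab of width `W` lie on `⌊W⌋ + 1` parallel lattice hyperplanes -/
lemma slab_count {d : ℕ} (y : Fin d → ℤ) (a W : ℝ) :
    ∀ x : EuclideanSpace ℝ (Fin d), (∀ i, ∃ z : ℤ, x i = (z : ℝ)) →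
      a ≤ ∑ i, (y i : ℝ) * x i → ∑ i, (y i : ℝ) * x i ≤ a + W →
      ∃ k : Fin (⌊W⌋₊ + 1), inner ℝ x (io d y) = (⌈a⌉ : ℝ) + (k : ℕ) := by
  intro x hx h1 h2
  choose z hz using hx
  have hin : inner ℝ x (io d y) = ((∑ i, y i * z i : ℤ) : ℝ) := by
    rw [real_inner_comm, inner_io]
    push_cast
    exact Finset.sum_congr rfl fun i _ => by rw [hz]
  have hs : ∑ i, (y i : ℝ) * x i = ((∑ i, y i * z i : ℤ) : ℝ) := by
    push_cast
    exact Finset.sum_congr rfl fun i _ => by rw [hz]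
  set m : ℤ := ∑ i, y i * z i with hm
  rw [hs] at h1 h2
  have h3 : ⌈a⌉ ≤ m := Int.ceil_le.mpr h1
  have h4 : (m : ℝ) - ⌈a⌉ ≤ W := by
    have := Int.le_ceil a
    linarith
  obtain ⟨k, hk⟩ := Int.eq_ofNat_of_zero_le (sub_nonneg.mpr h3)
  have h5 : (k : ℝ) ≤ W := by
    have : ((m - ⌈a⌉ : ℤ) : ℝ) = (k : ℝ) := by rw [hk]; simp
    push_cast at this
    linarith
  have h6 : k ≤ ⌊W⌋₊ := Nat.le_floor h5
  refine ⟨⟨k, by omega⟩, ?_⟩
  rw [hin]
  have : (m : ℝ) = ((⌈a⌉ + (m - ⌈a⌉) : ℤ) : ℝ) := by congr 1; ring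
  rw [this, hk]
  push_cast
  rfl

end H912Cov
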