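import Pool.Agent.H912R3.Cov.Main

/-! Real polynomials of total degree at most `N` satisfy `PD (N+1)` on the integer points. -/

set_option autoImplicit false

open Set

namespace H912Cov

lemma PD_mono_one {G : Type*} [AddCommGroup G] {n : ℕ} : ∀ {g : G → ℝ}, PD n g → PD (n + 1) g := by
  induction n with
  | zero =>
    intro g hg
    have hg' : g = 0 := hg
    subst hg'
    exact PD_zero 1
  | succ n ih => exact fun hg v => ih (hg v)

lemma PD_mono {G : Type*} [AddCommGroup G] {n m : ℕ} (h : n ≤ m) {g : G → ℝ} (hg : PD n g) :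
    PD m g := by
  induction h with
  | refl => exact hg
  | step _ ih => exact PD_mono_one ih

lemma PD_sum {G ι : Type*} [AddCommGroup G] {n : ℕ} (s : Finset ι) (g : ι → G → ℝ)
    (h : ∀ i ∈ s, PD n (g i)) : PD n (fun u => ∑ i ∈ s, g i u) := by
  classical
  induction s using Finset.induction_on with
  | empty =>
    simp only [Finset.sum_empty]
    exact PD_zero n
  | insert a s ha ih =>
    have h1 := PD_add (h a (Finset.mem_insert_self a s))
      (ih fun i hi => h i (Finset.mem_insert_of_mem hi))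
    have e : (fun u => ∑ i ∈ insert a s, g i u) = fun u => g a u + ∑ i ∈ s, g i u := by
      funext u; rw [Finset.sum_insert ha]
    rw [e]
    exact h1

lemma PD_pow {G : Type*} [AddCommGroup G] {n : ℕ} (a : G → ℝ) (lam : G → ℝ)
    (ha : ∀ u v, a (u + v) = a u + lam v) (k : ℕ) {g : G → ℝ} (hg : PD n g) :
    PD (n + k) (fun u => a u ^ k * g u) := by
  induction k with
  | zero => simpa using hg
  | succ k ih =>
    have h1 := PD_mul a lam ha ih
    have e : (fun u => a u ^ (k + 1) * g u) = fun u => a u * (a u ^ k * g u) := by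
      funext u; ring
    rw [e]
    exact h1

lemma PD_monomial {d : ℕ} (e : Fin d → ℕ) (s : Finset (Fin d)) :
    PD (1 + ∑ i ∈ s, e i) (fun z : Fin d → ℤ => ∏ i ∈ s, ((z i : ℝ)) ^ e i) := by
  classical
  induction s using Finset.induction_on with
  | empty =>
    intro v
    show (fun u : Fin d → ℤ => (∏ i ∈ (∅ : Finset (Fin d)), (((u + v) i : ℤ) : ℝ) ^ e i) -
      ∏ i ∈ (∅ : Finset (Fin d)), ((u i : ℤ) : ℝ) ^ e i) = 0
    funext u; simp
  | insert a s ha ih =>
    have h1 := PD_pow (fun z : Fin d → ℤ => (z a : ℝ)) (fun z : Fin d → ℤ => (z a : ℝ))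
      (fun u v => by simp) (e a) ih
    have e1 : (fun z : Fin d → ℤ => ∏ i ∈ insert a s, ((z i : ℝ)) ^ e i) =
        fun z : Fin d → ℤ => (z a : ℝ) ^ e a * ∏ i ∈ s, ((z i : ℝ)) ^ e i := by
      funext z; rw [Finset.prod_insert ha]
    rw [e1, Finset.sum_insert ha]
    have e2 : 1 + (e a + ∑ i ∈ s, e i) = 1 + ∑ i ∈ s, e i + e a := by ring
    rw [e2]
    exact h1

theorem PD_poly {d N : ℕ} (p : MvPolynomial (Fin d) ℝ) (hp : p.totalDegree ≤ N) :
    PD (N + 1) (fun z : Fin d → ℤ => MvPolynomial.eval (fun i => (z i : ℝ)) p) := by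
  have e : (fun z : Fin d → ℤ => MvPolynomial.eval (fun i => (z i : ℝ)) p) =
      fun z : Fin d → ℤ => ∑ m ∈ p.support, p.coeff m * ∏ i, ((z i : ℝ)) ^ m i := by
    funext z
    rw [MvPolynomial.eval_eq']
  rw [e]
  apply PD_sum
  intro m hm
  apply PD_smul
  apply PD_mono _ (PD_monomial m Finset.univ)
  have h1 := MvPolynomial.le_totalDegree hm
  have h2 : (m.sum fun _ e => e) = ∑ i, m i := Finsupp.sum_fintype _ _ (fun _ => rfl)
  rw [h2] at h1
  omega

/-- a nonzero real polynomial does not vanish at all integer points -/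
lemma poly_ne {d : ℕ} (p : MvPolynomial (Fin d) ℝ) (hp : p ≠ 0) :
    ∃ z : Fin d → ℤ, MvPolynomial.eval (fun i => (z i : ℝ)) p ≠ 0 := by
  by_contra hcon
  push Not at hcon
  apply hp
  apply MvPolynomial.funext_set (fun _ : Fin d => Set.range (fun z : ℤ => (z : ℝ)))
    (fun _ => Set.infinite_range_of_injective Int.cast_injective)
  intro x hx
  have h1 : ∀ i, ∃ z : ℤ, (z : ℝ) = x i := fun i => hx i (Set.mem_univ i)
  choose z hz using h1
  have h2 := hcon z
  have e : (fun i => (z i : ℝ)) = x := funext hz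
  rw [e] at h2
  rw [h2]
  simp

end H912Cov
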